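import Pool.Agent.Helper54.DI.StmtsB
import Pool.Agent.Helper54.DI.StmtsC

/-! Statements of the definability part for signatures with positive and negative relations. -/

namespace Pool.Agent.Helper54.DP

open Finset Filter Topology
open Pool.Agent.Helper54.ETR hiding Cons
open Pool.Agent.Helper54.Poly
open Pool.Agent.Helper54.DI hiding PP Gad Tpl ST_PPAND ST_PPRE ST_PPEX ST_PPTRUE ST_PPALL ST_PPLE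
  ST_PPAFF ST_PPREL ST_PPOUT ST_PPTUP ST_GAD ST_TPL ST_SND ST_CPL ST_INSC ST_ITM ST_TPF ST_HARD

/-- relations that may be used, relations whose negation may be used -/
abbrev Sig := List Form × List Form

/-- conjunctions of constraints over a signature -/
inductive Cn (S : Sig) : Form → Prop
  | one (i : ℕ) : Cn S (Form.eq (Term.var i) Term.one)
  | add (i j k : ℕ) : Cn S (Form.eq (Term.add (Term.var i) (Term.var j)) (Term.var k))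
  | le (i j : ℕ) : Cn S (Form.le (Term.var i) (Term.var j))
  | pos {ρ : Form} (f : ℕ → ℕ) : ρ ∈ S.1 → Cn S (ρ.ren f)
  | neg {ρ : Form} (f : ℕ → ℕ) : ρ ∈ S.2 → Cn S (Form.not (ρ.ren f))
  | and {p q : Form} : Cn S p → Cn S q → Cn S (Form.and p q)

/-- relations definable by conjunctions of constraints with auxiliary variables -/
def PP (Γ : Sig) {ι : Type} (P : (ι → ℝ) → Prop) : Prop :=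
  ∃ (e : ι → ℕ) (χ : Form), Function.Injective e ∧ Cn Γ χ ∧
    ∀ v : ι → ℝ, P v ↔ ∃ w : ℕ → ℝ, (∀ i, w (e i) = v i) ∧ χ.Holds w

/-! closure properties -/

def ST_PPAND : Prop := ∀ (Γ : Sig) (ι : Type) [Fintype ι] (P Q : (ι → ℝ) → Prop),
  PP Γ P → PP Γ Q → PP Γ (fun v => P v ∧ Q v)

def ST_PPRE : Prop := ∀ (Γ : Sig) (ι κ : Type) [Fintype ι] [Fintype κ] (P : (κ → ℝ) → Prop)
  (g : κ → ι), PP Γ P → PP Γ (fun v : ι → ℝ => P (fun a => v (g a)))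

def ST_PPEX : Prop := ∀ (Γ : Sig) (ι κ : Type) [Fintype ι] [Fintype κ]
  (P : (ι ⊕ κ → ℝ) → Prop), PP Γ P → PP Γ (fun v : ι → ℝ => ∃ u : κ → ℝ, P (Sum.elim v u))

def ST_PPTRUE : Prop := ∀ (Γ : Sig) (ι : Type) [Fintype ι], PP Γ (fun _ : ι → ℝ => True)

def ST_PPALL : Prop := ∀ (Γ : Sig) (ι : Type) [Fintype ι] (m : ℕ)
  (P : Fin m → (ι → ℝ) → Prop), (∀ i, PP Γ (P i)) → PP Γ (fun v => ∀ i, P i v)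

/-- rational linear inequalities -/
def ST_PPLE : Prop := ∀ (Γ : Sig) (ι : Type) [Fintype ι] (c : ι → ℚ) (b : ℚ),
  PP Γ (fun v : ι → ℝ => ∑ i, (c i : ℝ) * v i ≤ b)

/-- rational affine substitutions -/
def ST_PPAFF : Prop := ∀ (Γ : Sig) (ι κ : Type) [Fintype ι] [Fintype κ]
  (P : (κ → ℝ) → Prop) (L : κ → ι → ℚ) (b : κ → ℚ), PP Γ P →
  PP Γ (fun v : ι → ℝ => P (fun a => ∑ i, (L a i : ℝ) * v i + b a))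

def ST_PPREL : Prop := ∀ (Γ : Sig) (ρ : Form) (k : ℕ), FBelow k ρ →
  (ρ ∈ Γ.1 → PP Γ (fun v : Fin k → ℝ => ρ.Holds (ext0 v))) ∧
  (ρ ∈ Γ.2 → PP Γ (fun v : Fin k → ℝ => ¬ ρ.Holds (ext0 v)))

/-- extraction of a formula -/
def ST_PPOUT : Prop := ∀ (Γ : Sig) (n : ℕ) (P : (Fin n → ℝ) → Prop), PP Γ P →
  ∃ (χ : Form) (N : ℕ), Cn Γ χ ∧ FBelow N χ ∧ n ≤ N ∧
    ∀ v : Fin n → ℝ, P v ↔ ∃ w : ℕ → ℝ, (∀ i : Fin n, w i = v i) ∧ χ.Holds w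

/-- a curve gadget: approximate access to a function with positive second derivative at `0` -/
def Gad (Γ : Sig) : Prop :=
  ∃ (f : ℝ → ℝ) (ρ ε₀ : ℝ) (R : (Fin 3 → ℝ) → Prop), PP Γ R ∧ 0 < ρ ∧ 0 < ε₀ ∧
    ContDiffAt ℝ 3 f 0 ∧ 0 < iteratedDeriv 2 f 0 ∧
    (∀ v, R v → |v 0| ≤ ρ ∧ |v 1 - f (v 0)| ≤ v 2) ∧
    ∀ x ε : ℝ, |x| ≤ ρ → 0 < ε → ε ≤ ε₀ → R ![x, f x, ε]

/-- the relation `Tup` is definable -/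
def ST_PPTUP : Prop := ∀ (Γ : Sig) (k : ℕ) (T : Set (Fin k → ℝ)) (m : ℕ)
  (a b : Fin k → ℚ), PP Γ (fun v : Fin k → ℝ => v ∈ T) → PP Γ (fun v : Fin k → ℝ => v ∉ T) →
  PP Γ (fun v : Fin k → ℝ => Tup T m a b v)

def ST_GAD : Prop := ∀ (Γ : Sig) (ρ : Form) (k : ℕ), ρ ∈ Γ.1 → ρ ∈ Γ.2 → FBelow k ρ →
  Geo {x : Fin k → ℝ | ρ.Holds (ext0 x)} → Gad Γ

/-- the gadget for algebraic sets uses no negation -/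
def ST_GADP : Prop := ∀ (Γ : Sig) (ρ : Form) (k : ℕ), ρ ∈ Γ.1 → FBelow k ρ →
  GeoP {x : Fin k → ℝ | ρ.Holds (ext0 x)} → Gad Γ

/-- approximate products -/
structure Tpl (Γ : Sig) (r C : ℝ) (AP : ℝ → ℝ → ℝ → Prop)
    (GM : ℝ → ℝ → ℝ → ℝ → ℝ → Prop) : Prop where
  r0 : 0 < r
  r1 : r ≤ 1
  C1 : 1 ≤ C
  pp0 : PP Γ (fun v : Fin 1 → ℝ => v 0 = r / 16)
  ppA : PP Γ (fun v : Fin 3 → ℝ => AP (v 0) (v 1) (v 2))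
  ppG : PP Γ (fun v : Fin 5 → ℝ => GM (v 0) (v 1) (v 2) (v 3) (v 4))
  aps : ∀ a b c, AP a b c → 0 ≤ a ∧ a ≤ r ∧ 0 ≤ b ∧ b ≤ r ∧ 0 ≤ c ∧ c ≤ r ∧
    a * b ≤ 3 * (r * c) ∧ r * c ≤ 3 * (a * b)
  apc : ∀ a b, 0 < a → a ≤ r → 0 < b → b ≤ r → AP a b (a * b / r)
  gms : ∀ a b c δ ω, GM a b c δ ω → 0 ≤ ω → ∀ m, m ≤ r → |a| ≤ m → |b| ≤ m → |c| ≤ m → |δ| ≤ m →
    |a * b - c * δ| ≤ C * (m * (|a * b| + |c * δ|) + ω)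
  gmc : ∀ a b c δ ω m, m ≤ r → |a| ≤ m → |b| ≤ m → |c| ≤ m → |δ| ≤ m → 0 < ω → ω ≤ r →
    a * b = c * δ → C * (m * |a * b|) ≤ ω → GM a b c δ ω

def ST_TPL : Prop := ∀ Γ : Sig, Gad Γ → ∃ (r C : ℝ) (AP : ℝ → ℝ → ℝ → Prop)
  (GM : ℝ → ℝ → ℝ → ℝ → ℝ → Prop), Tpl Γ r C AP GM

def ST_SND : Prop := ∀ (Γ : Sig) (r C : ℝ) (AP : ℝ → ℝ → ℝ → Prop)
  (GM : ℝ → ℝ → ℝ → ℝ → ℝ → Prop), Tpl Γ r C AP GM → ∀ c0 : ℕ, C ≤ 2 ^ c0 → 1 ≤ r * 2 ^ c0 →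
  ∀ c, 2 * c0 + 10 ≤ c → ∀ E : List Term, (∀ e ∈ E, Basic e) → (∀ e ∈ E, e.Below E.length) →
  (∃ s m ω a, Core r AP GM E c E.length s m ω a) → ∃ x : ℕ → ℝ, ∀ e ∈ E, e.eval x = 0

def ST_CPL : Prop := ∀ (Γ : Sig) (r C : ℝ) (AP : ℝ → ℝ → ℝ → Prop)
  (GM : ℝ → ℝ → ℝ → ℝ → ℝ → Prop), Tpl Γ r C AP GM → ∀ c0 : ℕ, C ≤ 2 ^ c0 → 1 ≤ r * 2 ^ c0 →
  ∀ c, 2 * c0 + 10 ≤ c → ∀ E : List Term, (∀ e ∈ E, Basic e) → (∀ e ∈ E, e.Below E.length) →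
  (∃ x : ℕ → ℝ, ∀ e ∈ E, e.eval x = 0) → ∃ s m ω a, Core r AP GM E c E.length s m ω a

def ST_INSC : Prop := ∀ (Γ : Sig) (L : List Form) (B N : ℕ), (∀ ψ ∈ L, Cn Γ ψ) →
  ∀ (l : List (ℕ × List ℕ)) (t : ℕ), Cn Γ (inst L B N t l)

/-- the instance is solvable iff the real numbers exist -/
def ST_ITM : Prop := ∀ (Γ : Sig) (r : ℝ) (AP : ℝ → ℝ → ℝ → Prop)
  (GM : ℝ → ℝ → ℝ → ℝ → ℝ → Prop) (L : List Form) (N : ℕ), L.length = 6 → (∀ ψ ∈ L, FBelow N ψ) →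
  1 ≤ N →
  (∀ s : ℝ, s = r / 16 ↔ ∃ w : ℕ → ℝ, w 0 = s ∧ (L.getD 0 dF).Holds w) →
  (∀ a b c : ℝ, AP a b c ↔ ∃ w : ℕ → ℝ, w 0 = a ∧ w 1 = b ∧ w 2 = c ∧ (L.getD 1 dF).Holds w) →
  (∀ a b : ℝ, a = b ↔ ∃ w : ℕ → ℝ, w 0 = a ∧ w 1 = b ∧ (L.getD 2 dF).Holds w) →
  (∀ a b c : ℝ, a + b = c ↔ ∃ w : ℕ → ℝ, w 0 = a ∧ w 1 = b ∧ w 2 = c ∧
    (L.getD 3 dF).Holds w) →
  (∀ a m : ℝ, (-m ≤ a ∧ a ≤ m) ↔ ∃ w : ℕ → ℝ, w 0 = a ∧ w 1 = m ∧ (L.getD 4 dF).Holds w) →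
  (∀ a b c δ ω : ℝ, GM a b c δ ω ↔ ∃ w : ℕ → ℝ, w 0 = a ∧ w 1 = b ∧ w 2 = c ∧ w 3 = δ ∧ w 4 = ω ∧
    (L.getD 5 dF).Holds w) →
  ∀ (c : ℕ) (E : List Term), (∀ e ∈ E, Basic e) → (∀ e ∈ E, e.Below E.length) →
  ((∃ x : ℕ → ℝ, (inst L (j2 c E.length + 4 + E.length) N 0 (items c (E.map Term.toks))).Holds x)
    ↔ ∃ s m ω a, Core r AP GM E c E.length s m ω a)

/-- the templates exist -/
def ST_TPF : Prop := ∀ (Γ : Sig) (r C : ℝ) (AP : ℝ → ℝ → ℝ → Prop)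
  (GM : ℝ → ℝ → ℝ → ℝ → ℝ → Prop), Tpl Γ r C AP GM → ∃ (L : List Form) (N : ℕ), L.length = 6 ∧
  (∀ ψ ∈ L, FBelow N ψ ∧ Cn Γ ψ) ∧ 1 ≤ N ∧
  (∀ s : ℝ, s = r / 16 ↔ ∃ w : ℕ → ℝ, w 0 = s ∧ (L.getD 0 dF).Holds w) ∧
  (∀ a b c : ℝ, AP a b c ↔ ∃ w : ℕ → ℝ, w 0 = a ∧ w 1 = b ∧ w 2 = c ∧ (L.getD 1 dF).Holds w) ∧
  (∀ a b : ℝ, a = b ↔ ∃ w : ℕ → ℝ, w 0 = a ∧ w 1 = b ∧ (L.getD 2 dF).Holds w) ∧
  (∀ a b c : ℝ, a + b = c ↔ ∃ w : ℕ → ℝ, w 0 = a ∧ w 1 = b ∧ w 2 = c ∧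
    (L.getD 3 dF).Holds w) ∧
  (∀ a m : ℝ, (-m ≤ a ∧ a ≤ m) ↔ ∃ w : ℕ → ℝ, w 0 = a ∧ w 1 = m ∧ (L.getD 4 dF).Holds w) ∧
  (∀ a b c δ ω : ℝ, GM a b c δ ω ↔ ∃ w : ℕ → ℝ, w 0 = a ∧ w 1 = b ∧ w 2 = c ∧ w 3 = δ ∧ w 4 = ω ∧
    (L.getD 5 dF).Holds w)

def ST_HARD : Prop := ∀ Γ : Sig, Gad Γ → ∃ f : List Bool → List Bool, PT f ∧
  Nonempty (Turing.TM2ComputableInPolyTime (fun l : List Bool => l) (fun l => l) f) ∧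
  ∀ u, ∃ φ : Form, f u = φ.code ∧ Cn Γ φ ∧
    ((∃ ψ : Form, u = ψ.code ∧ ∃ x : ℕ → ℝ, ψ.Holds x) ↔ ∃ x : ℕ → ℝ, φ.Holds x)

/-! algebraic formulas -/

/-- the formula is built from equations by `∧` and `∨` -/
def Algebraic : Form → Prop
  | Form.eq _ _ => True
  | Form.and p q => Algebraic p ∧ Algebraic q
  | Form.or p q => Algebraic p ∧ Algebraic q
  | _ => False

def ST_ACF : Prop := ∀ (ρ : Form) (k : ℕ), FBelow k ρ → Algebraic ρ →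
  AC {x : Fin k → ℝ | ρ.Holds (ext0 x)}

end Pool.Agent.Helper54.DP
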