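/- adapted from Helper58/DI/CPL.lean -/
import Pool.Agent.Helper54.DP.Stmts

namespace Pool.Agent.Helper54.DP.CPL

open Finset Filter Topology
open Pool.Agent.Helper54.ETR hiding Cons
open Pool.Agent.Helper54.Poly
open Pool.Agent.Helper54.DI hiding PP Gad Tpl ST_PPAND ST_PPRE ST_PPEX ST_PPTRUE ST_PPALL ST_PPLE
  ST_PPAFF ST_PPREL ST_PPOUT ST_PPTUP ST_GAD ST_TPL ST_SND ST_CPL ST_INSC ST_ITM ST_TPF ST_HARD

theorem st_CPL_aux (Q J c0 c : ℕ) (hc : 2 * c0 + 10 ≤ c) :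
    c0 + 2 * 2 ^ Q + 4 * 2 ^ J ≤ 4 * 2 ^ (J + Q + c) := by
  have h1 : 1 ≤ 2 ^ J := Nat.one_le_two_pow
  have h2 : 1 ≤ 2 ^ Q := Nat.one_le_two_pow
  have h3 : c < 2 ^ c := Nat.lt_two_pow_self
  have e : 2 ^ (J + Q + c) = 2 ^ J * 2 ^ Q * 2 ^ c := by rw [pow_add, pow_add]
  rw [e]
  set a := 2 ^ J
  set b := 2 ^ Q
  set d := 2 ^ c
  have h4 : a ≤ a * b := Nat.le_mul_of_pos_right _ (by omega)
  have h5 : b ≤ a * b := Nat.le_mul_of_pos_left _ (by omega)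
  have h6 : 1 ≤ a * b := le_trans h1 h4
  have h7 : a * b * (2 * c0 + 11) ≤ a * b * d := Nat.mul_le_mul_left _ (by omega)
  have h8 : c0 ≤ a * b * c0 := Nat.le_mul_of_pos_left _ (by omega)
  nlinarith

theorem st_CPL (hBG : ST_BG) : ST_CPL := by
  intro Γ r C AP GM T c0 hC hr c hc E hE hB ⟨x0, hx0⟩
  obtain ⟨x, hx, hxb⟩ := (hBG E hE hB).1 ⟨x0, hx0⟩
  clear hx0 x0
  set n := E.length with hn
  set Q := QB n with hQ
  have r0 := T.r0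
  have r1 := T.r1
  have C1 := T.C1
  -- the chain
  obtain ⟨s, hs⟩ : ∃ s : ℕ → ℝ, ∀ j, s j = r * (1 / 16) ^ (2 ^ j) := ⟨_, fun _ => rfl⟩
  have spos : ∀ j, 0 < s j := fun j => by rw [hs]; positivity
  have sle : ∀ j, s j ≤ r := fun j => by
    rw [hs]
    have : ((1 : ℝ) / 16) ^ (2 ^ j) ≤ 1 := pow_le_one₀ (by norm_num) (by norm_num)
    nlinarith
  have santi : ∀ i j, i ≤ j → s j ≤ s i := fun i j h => by
    rw [hs, hs]
    have : ((1 : ℝ) / 16) ^ (2 ^ j) ≤ (1 / 16) ^ (2 ^ i) :=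
      pow_le_pow_of_le_one (by norm_num) (by norm_num) (Nat.pow_le_pow_right (by norm_num) h)
    nlinarith
  have ssq : ∀ j, s (j + 1) = s j * s j / r := fun j => by
    rw [hs, hs, pow_succ 2 j, pow_mul, sq]
    field_simp
  have hj2 : j2 c n = j3 c n + Q + c := by unfold j2 j3; omega
  have hj1 : j1 n = Q := rfl
  set δ := s (j2 c n) with hδ
  set τ := s (j1 n) with hτ
  have δ0 : 0 < δ := spos _
  have τ0 : 0 < τ := spos _
  have δτ : δ ≤ τ := santi _ _ (by rw [hj1, hj2]; omega)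
  have δr : δ ≤ r := sle _
  have hτv : τ = r * (1 / 16) ^ (2 ^ Q) := by rw [hτ, hs, hj1]
  have hrτ : r / τ = 16 ^ (2 ^ Q) := by
    rw [hτv, one_div, inv_pow]
    field_simp
  have hm0 : (2 : ℝ) ^ 2 ^ Q * δ ≤ r * δ / τ := by
    have h1 : r * δ / τ = r / τ * δ := by ring
    rw [h1, hrτ]
    have h2 : (2 : ℝ) ^ 2 ^ Q ≤ 16 ^ 2 ^ Q := pow_le_pow_left₀ (by norm_num) (by norm_num) _
    nlinarith
  have hmr : r * δ / τ ≤ r := by
    rw [div_le_iff₀ τ0]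
    nlinarith
  set ω := s (j2 c n + 1) * s (j3 c n) / r with hω
  have ω0 : 0 < ω := by rw [hω]; exact div_pos (mul_pos (spos _) (spos _)) r0
  have ωr : ω ≤ r := by
    rw [hω, div_le_iff₀ r0]
    exact mul_le_mul (sle _) (sle _) (spos _).le r0.le
  have one2 : (1 : ℝ) ≤ 2 ^ 2 ^ Q := one_le_pow₀ (by norm_num)
  -- the main estimate
  have key : C * ((2 : ℝ) ^ 2 ^ Q * δ * ((2 : ℝ) ^ 2 ^ Q * δ * δ)) ≤ ω := by
    have h1 : s (j3 c n) = r * (1 / 16) ^ (2 ^ j3 c n) := hs _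
    have h2 : δ = r * (1 / 16) ^ (2 ^ j2 c n) := hs _
    have h3 : ω = δ * δ * (1 / 16) ^ (2 ^ j3 c n) / r := by
      rw [hω, ssq, h1, ← hδ]
      field_simp
    have h4 : C * ((2 : ℝ) ^ 2 ^ Q * ((2 : ℝ) ^ 2 ^ Q * ((1 / 16) ^ (2 ^ j2 c n)))) ≤
        (1 / 16) ^ (2 ^ j3 c n) := by
      have e1 : ((1 : ℝ) / 16) ^ (2 ^ j2 c n) = 1 / 2 ^ (4 * 2 ^ j2 c n) := by
        rw [one_div_pow, pow_mul]; norm_num
      have e2 : ((1 : ℝ) / 16) ^ (2 ^ j3 c n) = 1 / 2 ^ (4 * 2 ^ j3 c n) := by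
        rw [one_div_pow, pow_mul]; norm_num
      rw [e1, e2]
      have h5 := st_CPL_aux Q (j3 c n) c0 c hc
      rw [← hj2] at h5
      have h6 : (2 : ℝ) ^ (c0 + 2 * 2 ^ Q + 4 * 2 ^ j3 c n) ≤ 2 ^ (4 * 2 ^ j2 c n) :=
        pow_le_pow_right₀ (by norm_num) h5
      have h7 : (2 : ℝ) ^ (c0 + 2 * 2 ^ Q + 4 * 2 ^ j3 c n) =
          2 ^ c0 * (2 ^ 2 ^ Q * 2 ^ 2 ^ Q) * 2 ^ (4 * 2 ^ j3 c n) := by
        rw [pow_add, pow_add, two_mul, pow_add]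
      rw [h7] at h6
      have p1 : (0 : ℝ) < 2 ^ (4 * 2 ^ j3 c n) := by positivity
      have p2 : (0 : ℝ) < 2 ^ (4 * 2 ^ j2 c n) := by positivity
      have e3 : C * ((2 : ℝ) ^ 2 ^ Q * ((2 : ℝ) ^ 2 ^ Q * (1 / 2 ^ (4 * 2 ^ j2 c n)))) =
          C * ((2 : ℝ) ^ 2 ^ Q * (2 : ℝ) ^ 2 ^ Q) / 2 ^ (4 * 2 ^ j2 c n) := by ring
      rw [e3, div_le_div_iff₀ p2 p1, one_mul]
      refine le_trans ?_ h6
      have p3 : (0 : ℝ) ≤ (2 : ℝ) ^ 2 ^ Q * (2 : ℝ) ^ 2 ^ Q * 2 ^ (4 * 2 ^ j3 c n) := by positivity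
      nlinarith
    have h8 : C * ((2 : ℝ) ^ 2 ^ Q * δ * ((2 : ℝ) ^ 2 ^ Q * δ * δ)) =
        δ * δ * r * (C * ((2 : ℝ) ^ 2 ^ Q * ((2 : ℝ) ^ 2 ^ Q * ((1 / 16) ^ (2 ^ j2 c n))))) := by
      have : C * ((2 : ℝ) ^ 2 ^ Q * δ * ((2 : ℝ) ^ 2 ^ Q * δ * δ)) =
        δ * δ * (C * ((2 : ℝ) ^ 2 ^ Q * ((2 : ℝ) ^ 2 ^ Q * δ))) := by ring
      rw [this]
      nth_rw 3 [h2]
      ring
    rw [h8, h3]
    have h9 : δ * δ * r * (C * ((2 : ℝ) ^ 2 ^ Q * ((2 : ℝ) ^ 2 ^ Q * ((1 / 16) ^ (2 ^ j2 c n))))) ≤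
        δ * δ * r * (1 / 16) ^ (2 ^ j3 c n) :=
      mul_le_mul_of_nonneg_left h4 (by positivity)
    refine le_trans h9 ?_
    rw [le_div_iff₀ r0]
    have p4 : (0 : ℝ) ≤ δ * δ * (1 / 16) ^ (2 ^ j3 c n) := by positivity
    have p5 : r * r ≤ 1 := by nlinarith
    nlinarith [mul_le_mul_of_nonneg_left p5 p4]
  have habs : ∀ i < n, |x i * δ| ≤ 2 ^ 2 ^ Q * δ := fun i hi => by
    rw [abs_mul, abs_of_pos δ0]
    exact mul_le_mul_of_nonneg_right (hxb i hi) δ0.le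
  refine ⟨s, r * δ / τ, ω, fun i => x i * δ, ?_, ?_, ?_, ?_, ?_, ?_, ?_, ?_⟩
  · rw [hs]; norm_num; ring
  · intro j _
    rw [ssq]
    exact T.apc _ _ (spos j) (sle j) (spos j) (sle j)
  · have h1 : r * δ / τ * τ / r = δ := by field_simp
    have h2 := T.apc (r * δ / τ) τ (div_pos (mul_pos r0 δ0) τ0) hmr τ0 (sle _)
    rw [h1] at h2
    exact h2
  · exact T.apc _ _ (spos _) (sle _) (spos _) (sle _)
  · intro i hi
    exact abs_le.mp (le_trans (habs i hi) hm0)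
  · intro i hi
    have h1 := hx _ hi
    have h2 : x i = 1 := by
      have : x i - 1 = 0 := h1
      linarith
    show x i * δ = δ
    rw [h2, one_mul]
  · intro i j k hi
    have h1 := hx _ hi
    have h2 : x i + x j - x k = 0 := h1
    show x i * δ + x j * δ = x k * δ
    have : x k = x i + x j := by linarith
    rw [this]; ring
  · intro i j k hi
    have h1 := hx _ hi
    have h2 : x i * x j - x k = 0 := h1
    have h3 : x k = x i * x j := by linarith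
    have h4 := hB _ hi
    have h5 : (i < n ∧ j < n) ∧ k < n := h4
    obtain ⟨⟨hi', hj'⟩, hk'⟩ := h5
    show GM (x i * δ) (x j * δ) (x k * δ) δ ω
    have hab : x i * δ * (x j * δ) = x k * δ * δ := by rw [h3]; ring
    refine T.gmc _ _ _ _ _ (2 ^ 2 ^ Q * δ) (le_trans hm0 hmr) (habs i hi') (habs j hj')
      (habs k hk') ?_ ω0 ωr hab ?_
    · rw [abs_of_pos δ0]; nlinarith
    · refine le_trans ?_ key
      have h6 : |x i * δ * (x j * δ)| ≤ 2 ^ 2 ^ Q * δ * δ := by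
        rw [hab, abs_mul, abs_of_pos δ0]
        exact mul_le_mul_of_nonneg_right (habs k hk') δ0.le
      have h7 : (0 : ℝ) ≤ 2 ^ 2 ^ Q * δ := by positivity
      exact mul_le_mul_of_nonneg_left (mul_le_mul_of_nonneg_left h6 h7) (by linarith)

end Pool.Agent.Helper54.DP.CPL
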