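/- adapted from Helper2/DI/GAD.lean -/
import Pool.Agent.Helper54.DP.Stmts

namespace Pool.Agent.Helper54.DP.GAD

open Finset Filter Topology
open Pool.Agent.Helper54.ETR hiding Cons
open Pool.Agent.Helper54.Poly
open Pool.Agent.Helper54.DI hiding PP Gad Tpl ST_PPAND ST_PPRE ST_PPEX ST_PPTRUE ST_PPALL ST_PPLE
  ST_PPAFF ST_PPREL ST_PPOUT ST_PPTUP ST_GAD ST_TPL ST_SND ST_CPL ST_INSC ST_ITM ST_TPF ST_HARD

/-- rational affine functions -/
def GAD_RA {ι : Type} [Fintype ι] (g : (ι → ℝ) → ℝ) : Prop :=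
  ∃ (c : ι → ℚ) (b : ℚ), ∀ v, g v = ∑ i, (c i : ℝ) * v i + b

section
variable {ι : Type} [Fintype ι]

theorem GAD_var (i : ι) : GAD_RA (fun v : ι → ℝ => v i) := by
  classical
  refine ⟨fun j => if j = i then 1 else 0, 0, fun v => ?_⟩
  rw [Finset.sum_eq_single i]
  · simp
  · intro j _ hj
    simp [hj]
  · intro h
    exact absurd (Finset.mem_univ i) h

theorem GAD_const (q : ℚ) : GAD_RA (fun _ : ι → ℝ => (q : ℝ)) :=
  ⟨fun _ => 0, q, by simp⟩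

theorem GAD_add {g h : (ι → ℝ) → ℝ} (hg : GAD_RA g) (hh : GAD_RA h) :
    GAD_RA (fun v => g v + h v) := by
  obtain ⟨c, b, hc⟩ := hg
  obtain ⟨c', b', hc'⟩ := hh
  refine ⟨fun i => c i + c' i, b + b', fun v => ?_⟩
  simp only []
  rw [hc, hc']
  have : ∑ i, ((c i + c' i : ℚ) : ℝ) * v i = ∑ i, (c i : ℝ) * v i + ∑ i, (c' i : ℝ) * v i := by
    rw [← Finset.sum_add_distrib]
    refine Finset.sum_congr rfl fun i _ => ?_
    push_cast
    ring
  rw [this]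
  push_cast
  ring

theorem GAD_smul (q : ℚ) {g : (ι → ℝ) → ℝ} (hg : GAD_RA g) :
    GAD_RA (fun v => (q : ℝ) * g v) := by
  obtain ⟨c, b, hc⟩ := hg
  refine ⟨fun i => q * c i, q * b, fun v => ?_⟩
  simp only []
  rw [hc]
  have : ∑ i, ((q * c i : ℚ) : ℝ) * v i = (q : ℝ) * ∑ i, (c i : ℝ) * v i := by
    rw [Finset.mul_sum]
    refine Finset.sum_congr rfl fun i _ => ?_
    push_cast
    ring
  rw [this]
  push_cast
  ring

theorem GAD_congr {g h : (ι → ℝ) → ℝ} (hg : GAD_RA g) (hh : ∀ v, h v = g v) : GAD_RA h := by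
  have : h = g := funext hh
  rw [this]
  exact hg

theorem GAD_sub {g h : (ι → ℝ) → ℝ} (hg : GAD_RA g) (hh : GAD_RA h) :
    GAD_RA (fun v => g v - h v) := by
  refine GAD_congr (GAD_add hg (GAD_smul (-1) hh)) fun v => ?_
  push_cast
  ring

omit [Fintype ι] in
theorem GAD_pcongr {Γ : Sig} {P Q : (ι → ℝ) → Prop} (hP : PP Γ P) (h : ∀ v, Q v ↔ P v) :
    PP Γ Q := by
  have : Q = P := funext fun v => propext (h v)
  rw [this]
  exact hP

theorem GAD_le (hLE : ST_PPLE) (Γ : Sig) {g h : (ι → ℝ) → ℝ} (hg : GAD_RA g)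
    (hh : GAD_RA h) : PP Γ (fun v => g v ≤ h v) := by
  obtain ⟨c, b, hc⟩ := GAD_sub hg hh
  refine GAD_pcongr (hLE Γ ι c (-b)) fun v => ?_
  have := hc v
  push_cast
  constructor
  · intro h
    linarith
  · intro h
    linarith

theorem GAD_eq (hLE : ST_PPLE) (hAND : ST_PPAND) (Γ : Sig) {g h : (ι → ℝ) → ℝ}
    (hg : GAD_RA g) (hh : GAD_RA h) : PP Γ (fun v => g v = h v) :=
  GAD_pcongr (hAND Γ ι _ _ (GAD_le hLE Γ hg hh) (GAD_le hLE Γ hh hg)) fun _ => le_antisymm_iff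

theorem GAD_true (hLE : ST_PPLE) (Γ : Sig) : PP Γ (fun _ : ι → ℝ => True) :=
  GAD_pcongr (hLE Γ ι (fun _ => 0) 0) fun v => by simp

theorem GAD_imp (hLE : ST_PPLE) {Γ : Sig} (p : Prop) {P : (ι → ℝ) → Prop} (hP : PP Γ P) :
    PP Γ (fun v => p → P v) := by
  by_cases hp : p
  · exact GAD_pcongr hP fun v => by simp [hp]
  · exact GAD_pcongr (GAD_true hLE Γ) fun v => by simp [hp]

theorem GAD_aff (hAFF : ST_PPAFF) {Γ : Sig} {κ : Type} [Fintype κ] {P : (κ → ℝ) → Prop}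
    (hP : PP Γ P) (g : (ι → ℝ) → κ → ℝ) (hg : ∀ a, GAD_RA (fun v => g v a)) :
    PP Γ (fun v => P (g v)) := by
  choose L b h using hg
  refine GAD_pcongr (hAFF Γ ι κ P L b hP) fun v => ?_
  have : g v = fun a => ∑ i, (L a i : ℝ) * v i + b a := funext fun a => h a v
  rw [← this]

end

theorem GAD_fin (hAFF : ST_PPAFF) (Γ : Sig) (f : ℝ → ℝ) (ρ ε₀ : ℝ)
    (R : (Fin 3 → ℝ) → Prop) (hR : PP Γ R) (hρ : 0 < ρ) (hε : 0 < ε₀) (hf : ContDiffAt ℝ 3 f 0)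
    (h2 : iteratedDeriv 2 f 0 ≠ 0) (hs : ∀ v, R v → |v 0| ≤ ρ ∧ |v 1 - f (v 0)| ≤ v 2)
    (hc : ∀ x ε : ℝ, |x| ≤ ρ → 0 < ε → ε ≤ ε₀ → R ![x, f x, ε]) : Gad Γ := by
  rcases lt_or_gt_of_ne h2 with h | h
  · refine ⟨fun x => -f x, ρ, ε₀, fun v => R ![v 0, -v 1, v 2], ?_, hρ, hε, hf.neg, ?_, ?_, ?_⟩
    · refine GAD_aff hAFF hR (fun v => ![v 0, -v 1, v 2]) fun a => ?_
      fin_cases a
      · exact GAD_congr (GAD_var 0) fun v => rfl
      · exact GAD_congr (GAD_smul (-1) (GAD_var 1)) fun v => by simp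
      · exact GAD_congr (GAD_var 2) fun v => rfl
    · have : iteratedDeriv 2 (fun x => -f x) 0 = -iteratedDeriv 2 f 0 := by
        simpa using iteratedDeriv_fun_neg 2 f 0
      rw [this]
      linarith
    · intro v hv
      have := hs _ hv
      simp only [Matrix.cons_val_zero, Matrix.cons_val_one, Matrix.cons_val] at this
      refine ⟨this.1, ?_⟩
      have h3 : v 1 - -f (v 0) = -(-v 1 - f (v 0)) := by ring
      rw [h3, abs_neg]
      exact this.2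
    · intro x ε hx h0 h1
      simpa using hc x ε hx h0 h1
  · exact ⟨f, ρ, ε₀, R, hR, hρ, hε, hf, h, hs, hc⟩

theorem st_GAD (hAND : ST_PPAND) (hRE : ST_PPRE) (hEX : ST_PPEX) (hALL : ST_PPALL)
    (hLE : ST_PPLE) (hAFF : ST_PPAFF) (hREL : ST_PPREL) (hTUP : ST_PPTUP) : ST_GAD := by
  intro Γ ρf k hmem hmem2 hbel ⟨T, m, a, b, C, l, y0, u, ρ, ε₀, f, hT, hρ, hε, hf, h2, hcase⟩
  have hTT : PP Γ (fun v : Fin k → ℝ => v ∈ T) ∧ PP Γ (fun v : Fin k → ℝ => v ∉ T) := by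
    obtain ⟨h1, h1'⟩ : _ ∧ _ := ⟨(hREL Γ ρf k hbel).1 hmem, (hREL Γ ρf k hbel).2 hmem2⟩
    rcases hT with rfl | rfl
    · exact ⟨h1, h1'⟩
    · refine ⟨h1', ?_⟩
      exact GAD_pcongr h1 fun v => by simp
  have hTup : PP Γ (fun v : Fin k → ℝ => Tup T m a b v) := hTUP Γ k T m a b hTT.1 hTT.2
  have habs : PP Γ (fun v : Fin 3 → ℝ => |v 0| ≤ (ρ : ℝ)) := by
    refine GAD_pcongr (hAND Γ _ _ _ (GAD_le hLE Γ (GAD_var 0) (GAD_const ρ))
      (GAD_le hLE Γ (GAD_smul (-1) (GAD_var 0)) (GAD_const ρ))) fun v => ?_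
    rw [abs_le']
    push_cast
    simp
  rcases hcase with ⟨hs, hc⟩ | ⟨s, hs, hc⟩
  · refine GAD_fin hAFF Γ f ρ ε₀ (fun v => RThin T m a b C l y0 u ρ (v 0) (v 1) ∧ 0 ≤ v 2) ?_
      (by exact_mod_cast hρ) hε hf h2 ?_ ?_
    · refine hAND Γ _ _ _ ?_ ?_
      · unfold RThin
        refine hAND Γ _ _ _ habs ?_
        refine GAD_pcongr (hEX Γ (Fin 3) (Fin k) (fun z : Fin 3 ⊕ Fin k → ℝ =>
          Tup T m a b (fun i => z (Sum.inr i)) ∧
          (∀ j : Fin k, j ∈ C → z (Sum.inr j) = y0 j + z (Sum.inl 0) * u j) ∧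
          z (Sum.inr l) = z (Sum.inl 1)) ?_) ?_
        · refine hAND Γ _ _ _ ?_ (hAND Γ _ _ _ ?_ ?_)
          · exact hRE Γ (Fin 3 ⊕ Fin k) (Fin k) _ Sum.inr hTup
          · refine hALL Γ _ k _ fun j => GAD_imp hLE _ (GAD_eq hLE hAND Γ (GAD_var _) ?_)
            refine GAD_congr (GAD_add (GAD_const (y0 j)) (GAD_smul (u j) (GAD_var (Sum.inl 0))))
              fun v => ?_
            ring
          · exact GAD_eq hLE hAND Γ (GAD_var _) (GAD_var _)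
        · intro v
          simp
      · refine GAD_pcongr (GAD_le hLE Γ (GAD_const 0) (GAD_var 2)) fun v => ?_
        simp
    · rintro v ⟨hv, hv2⟩
      refine ⟨hv.1, ?_⟩
      rw [hs _ _ hv]
      simpa using hv2
    · intro x ε hx h0 _
      exact ⟨by simpa using hc x hx, by simpa using h0.le⟩
  · refine GAD_fin hAFF Γ f ρ ε₀ (fun v => RHyp T m a b C l y0 u ρ s (v 0) (v 1) (v 2)) ?_
      (by exact_mod_cast hρ) hε hf h2 ?_ ?_
    · unfold RHyp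
      refine hAND Γ _ _ _ habs ?_
      refine GAD_pcongr (hEX Γ (Fin 3) (Fin k ⊕ Fin k) (fun z : Fin 3 ⊕ (Fin k ⊕ Fin k) → ℝ =>
        Tup T m a b (fun i => z (Sum.inr (Sum.inl i))) ∧
        Tup T m a b (fun i => z (Sum.inr (Sum.inr i))) ∧
        (∀ j : Fin k, j ∈ C → (z (Sum.inr (Sum.inl j)) = y0 j + z (Sum.inl 0) * u j ∧
          z (Sum.inr (Sum.inr j)) = y0 j + z (Sum.inl 0) * u j)) ∧
        z (Sum.inr (Sum.inl l)) = z (Sum.inl 1) - s * z (Sum.inl 2) ∧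
        z (Sum.inr (Sum.inr l)) = z (Sum.inl 1) - 3 * (s * z (Sum.inl 2)) ∧
        (∀ i : Fin k, (a i : ℝ) ≤ 2 * z (Sum.inr (Sum.inl i)) - z (Sum.inr (Sum.inr i)) ∧
          2 * z (Sum.inr (Sum.inl i)) - z (Sum.inr (Sum.inr i)) ≤ b i) ∧
        (fun i => 2 * z (Sum.inr (Sum.inl i)) - z (Sum.inr (Sum.inr i))) ∉ T) ?_) ?_
      · have hlin : ∀ i : Fin k, GAD_RA (fun z : Fin 3 ⊕ (Fin k ⊕ Fin k) → ℝ =>
            2 * z (Sum.inr (Sum.inl i)) - z (Sum.inr (Sum.inr i))) := fun i =>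
          GAD_congr (GAD_sub (GAD_smul 2 (GAD_var (Sum.inr (Sum.inl i))))
            (GAD_var (Sum.inr (Sum.inr i)))) fun v => by push_cast; ring
        have hy : ∀ j : Fin k, GAD_RA (fun z : Fin 3 ⊕ (Fin k ⊕ Fin k) → ℝ =>
            (y0 j : ℝ) + z (Sum.inl 0) * u j) := fun j =>
          GAD_congr (GAD_add (GAD_const (y0 j)) (GAD_smul (u j) (GAD_var (Sum.inl 0))))
            fun v => by ring
        refine hAND Γ _ _ _ ?_ (hAND Γ _ _ _ ?_ (hAND Γ _ _ _ ?_ (hAND Γ _ _ _ ?_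
          (hAND Γ _ _ _ ?_ (hAND Γ _ _ _ ?_ ?_)))))
        · exact hRE Γ (Fin 3 ⊕ (Fin k ⊕ Fin k)) (Fin k) _ (fun i => Sum.inr (Sum.inl i)) hTup
        · exact hRE Γ (Fin 3 ⊕ (Fin k ⊕ Fin k)) (Fin k) _ (fun i => Sum.inr (Sum.inr i)) hTup
        · refine hALL Γ _ k _ fun j => GAD_imp hLE _ (hAND Γ _ _ _
            (GAD_eq hLE hAND Γ (GAD_var _) (hy j)) (GAD_eq hLE hAND Γ (GAD_var _) (hy j)))
        · refine GAD_eq hLE hAND Γ (GAD_var _) ?_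
          exact GAD_congr (GAD_sub (GAD_var (Sum.inl 1)) (GAD_smul (s : ℚ)
            (GAD_var (Sum.inl 2)))) fun v => by push_cast; ring
        · refine GAD_eq hLE hAND Γ (GAD_var _) ?_
          exact GAD_congr (GAD_sub (GAD_var (Sum.inl 1)) (GAD_smul (3 * (s : ℚ))
            (GAD_var (Sum.inl 2)))) fun v => by push_cast; ring
        · exact hALL Γ _ k _ fun i => hAND Γ _ _ _
            (GAD_le hLE Γ (GAD_const (a i)) (hlin i)) (GAD_le hLE Γ (hlin i) (GAD_const (b i)))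
        · exact GAD_aff hAFF hTT.2 (fun z : Fin 3 ⊕ (Fin k ⊕ Fin k) → ℝ =>
            fun i => 2 * z (Sum.inr (Sum.inl i)) - z (Sum.inr (Sum.inr i))) hlin
      · intro v
        constructor
        · rintro ⟨P, Q, h1, h2, h3, h4, h5, h6, h7⟩
          exact ⟨Sum.elim P Q, h1, h2, h3, h4, h5, h6, h7⟩
        · rintro ⟨w, h1, h2, h3, h4, h5, h6, h7⟩
          exact ⟨fun i => w (Sum.inl i), fun i => w (Sum.inr i), h1, h2, h3, h4, h5, h6, h7⟩
    · intro v hv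
      exact ⟨hv.1, hs _ _ _ hv⟩
    · intro x ε hx h0 h1
      simpa using hc x ε hx h0 h1

end Pool.Agent.Helper54.DP.GAD
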