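/- adapted from Helper4/DI/ITM.lean -/
import Pool.Agent.Helper54.DP.Stmts

namespace Pool.Agent.Helper54.DP.ITM

open Finset Filter Topology
open Pool.Agent.Helper54.ETR hiding Cons
open Pool.Agent.Helper54.Poly
open Pool.Agent.Helper54.DI hiding PP Gad Tpl ST_PPAND ST_PPRE ST_PPEX ST_PPTRUE ST_PPALL ST_PPLE
  ST_PPAFF ST_PPREL ST_PPOUT ST_PPTUP ST_GAD ST_TPL ST_SND ST_CPL ST_INSC ST_ITM ST_TPF ST_HARD

/-- the relation of an item -/
def itP (L : List Form) (v : ℕ → ℝ) (it : ℕ × List ℕ) : Prop :=
  ∃ w : ℕ → ℝ, (∀ j < it.2.length, w j = v (it.2.getD j 0)) ∧ (L.getD it.1 dF).Holds w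

theorem itP1 {L : List Form} {v : ℕ → ℝ} {n a : ℕ} {P : ℝ → Prop}
    (h : ∀ s, P s ↔ ∃ w : ℕ → ℝ, w 0 = s ∧ (L.getD n dF).Holds w) :
    itP L v (n, [a]) ↔ P (v a) := by
  rw [h, itP]
  refine exists_congr fun w => ?_
  constructor
  · rintro ⟨h1, h2⟩
    exact ⟨h1 0 (by simp), h2⟩
  · rintro ⟨h0, h2⟩
    refine ⟨fun j hj => ?_, h2⟩
    simp only [List.length_cons, List.length_nil, Nat.zero_add] at hj
    interval_cases j
    simpa using h0

theorem itP2 {L : List Form} {v : ℕ → ℝ} {n a b : ℕ} {P : ℝ → ℝ → Prop}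
    (h : ∀ s t, P s t ↔ ∃ w : ℕ → ℝ, w 0 = s ∧ w 1 = t ∧ (L.getD n dF).Holds w) :
    itP L v (n, [a, b]) ↔ P (v a) (v b) := by
  rw [h, itP]
  refine exists_congr fun w => ?_
  constructor
  · rintro ⟨h1, h2⟩
    exact ⟨h1 0 (by simp), h1 1 (by simp), h2⟩
  · rintro ⟨h0, h1, h2⟩
    refine ⟨fun j hj => ?_, h2⟩
    simp only [List.length_cons, List.length_nil, Nat.zero_add, Nat.reduceAdd] at hj
    interval_cases j
    · simpa using h0
    · simpa using h1

theorem itP3 {L : List Form} {v : ℕ → ℝ} {n a b c : ℕ} {P : ℝ → ℝ → ℝ → Prop}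
    (h : ∀ s t u, P s t u ↔ ∃ w : ℕ → ℝ, w 0 = s ∧ w 1 = t ∧ w 2 = u ∧ (L.getD n dF).Holds w) :
    itP L v (n, [a, b, c]) ↔ P (v a) (v b) (v c) := by
  rw [h, itP]
  refine exists_congr fun w => ?_
  constructor
  · rintro ⟨h1, h2⟩
    exact ⟨h1 0 (by simp), h1 1 (by simp), h1 2 (by simp), h2⟩
  · rintro ⟨h0, h1, h3, h2⟩
    refine ⟨fun j hj => ?_, h2⟩
    simp only [List.length_cons, List.length_nil, Nat.zero_add, Nat.reduceAdd] at hj
    interval_cases j
    · simpa using h0
    · simpa using h1
    · simpa using h3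

theorem itP5 {L : List Form} {v : ℕ → ℝ} {n a b c d e : ℕ} {P : ℝ → ℝ → ℝ → ℝ → ℝ → Prop}
    (h : ∀ s t u x y, P s t u x y ↔ ∃ w : ℕ → ℝ, w 0 = s ∧ w 1 = t ∧ w 2 = u ∧ w 3 = x ∧ w 4 = y ∧
      (L.getD n dF).Holds w) :
    itP L v (n, [a, b, c, d, e]) ↔ P (v a) (v b) (v c) (v d) (v e) := by
  rw [h, itP]
  refine exists_congr fun w => ?_
  constructor
  · rintro ⟨h1, h2⟩
    exact ⟨h1 0 (by simp), h1 1 (by simp), h1 2 (by simp), h1 3 (by simp), h1 4 (by simp), h2⟩
  · rintro ⟨h0, h1, h3, h4, h5, h2⟩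
    refine ⟨fun j hj => ?_, h2⟩
    simp only [List.length_cons, List.length_nil, Nat.zero_add, Nat.reduceAdd] at hj
    interval_cases j
    · simpa using h0
    · simpa using h1
    · simpa using h3
    · simpa using h4
    · simpa using h5

theorem gitem_one (hV : ST_VNUM) (c n i : ℕ) :
    gitem c n (gOne i).toks = (2, [j2 c n + 4 + i, j2 c n]) := by
  have h : (gOne i).toks.getD 1 Tok.zero = Tok.x := rfl
  rw [gitem, h, hV.1]
  rfl

theorem gitem_add (hV : ST_VNUM) (c n i j k : ℕ) :
    gitem c n (gAdd i j k).toks =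
      (3, [j2 c n + 4 + i, j2 c n + 4 + j, j2 c n + 4 + k]) := by
  have h : (gAdd i j k).toks.getD 1 Tok.zero = Tok.add := rfl
  rw [gitem, h, hV.1]
  rfl

theorem gitem_mul (hV : ST_VNUM) (c n i j k : ℕ) :
    gitem c n (gMul i j k).toks =
      (5, [j2 c n + 4 + i, j2 c n + 4 + j, j2 c n + 4 + k, j2 c n, j2 c n + 3]) := by
  have h : (gMul i j k).toks.getD 1 Tok.zero = Tok.mul := rfl
  rw [gitem, h, hV.1]
  rfl

theorem st_ITM (hI : ST_INST) (hV : ST_VNUM) : ST_ITM := by
  intro Γ r AP GM L N hL hB hN h0 h1 h2 h3 h4 h5 c E hE hEb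
  have hlen : (E.map Term.toks).length = E.length := List.length_map _
  have hj1 : j1 E.length ≤ j2 c E.length := by unfold j1 j2; omega
  have hj3 : j3 c E.length ≤ j2 c E.length := by unfold j3 j2; omega
  have hidx : ∀ it ∈ items c (E.map Term.toks), it.1 < L.length ∧
      ∀ a ∈ it.2, a < j2 c E.length + 4 + E.length := by
    rw [items, hlen, hL]
    simp only [List.forall_mem_cons, List.forall_mem_append, List.forall_mem_map, List.mem_range]
    refine ⟨⟨by norm_num, ?_⟩, ?_, ⟨by norm_num, ?_⟩, ⟨by norm_num, ?_⟩, ?_, ?_⟩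
    · simp
    · intro j hj
      refine ⟨by norm_num, ?_⟩
      simp only [List.not_mem_nil, false_imp_iff, implies_true, and_true]
      omega
    · simp only [List.not_mem_nil, false_imp_iff, implies_true, and_true]
      omega
    · simp only [List.not_mem_nil, false_imp_iff, implies_true, and_true]
      omega
    · intro i hi
      refine ⟨by norm_num, ?_⟩
      simp only [List.not_mem_nil, false_imp_iff, implies_true, and_true]
      omega
    · intro e he
      have hb := hEb e he
      rcases hE e he with ⟨i, rfl⟩ | ⟨i, j, k, rfl⟩ | ⟨i, j, k, rfl⟩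
      · have hi : i < E.length := hb.1
        rw [gitem_one hV]
        refine ⟨by norm_num, ?_⟩
        simp only [List.forall_mem_cons, List.not_mem_nil, false_imp_iff, implies_true, and_true]
        omega
      · have hi : i < E.length := hb.1.1
        have hj : j < E.length := hb.1.2
        have hk : k < E.length := hb.2
        rw [gitem_add hV]
        refine ⟨by norm_num, ?_⟩
        simp only [List.forall_mem_cons, List.not_mem_nil, false_imp_iff, implies_true, and_true]
        omega
      · have hi : i < E.length := hb.1.1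
        have hj : j < E.length := hb.1.2
        have hk : k < E.length := hb.2
        rw [gitem_mul hV]
        refine ⟨by norm_num, ?_⟩
        simp only [List.forall_mem_cons, List.not_mem_nil, false_imp_iff, implies_true, and_true]
        omega
  have key : ∀ v : ℕ → ℝ, (∀ it ∈ items c (E.map Term.toks), itP L v it) ↔
      Core r AP GM E c E.length v (v (j2 c E.length + 2)) (v (j2 c E.length + 3))
        (fun i => v (j2 c E.length + 4 + i)) := by
    intro v
    rw [items, hlen]
    simp only [List.forall_mem_cons, List.forall_mem_append, List.forall_mem_map, List.mem_range]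
    rw [itP1 h0, itP3 h1, itP3 h1]
    constructor
    · rintro ⟨a1, a2, a3, a4, a5, a6⟩
      refine ⟨a1, fun j hj => (itP3 h1).1 (a2 j hj), a3, a4, fun i hi => (itP2 h4).1 (a5 i hi),
        ?_, ?_, ?_⟩
      · intro i he
        have := a6 _ he
        rw [gitem_one hV] at this
        exact (itP2 h2).1 this
      · intro i j k he
        have := a6 _ he
        rw [gitem_add hV] at this
        exact (itP3 (P := fun a b c => a + b = c) h3).1 this
      · intro i j k he
        have := a6 _ he
        rw [gitem_mul hV] at this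
        exact (itP5 h5).1 this
    · intro hc
      refine ⟨hc.s0, fun j hj => (itP3 h1).2 (hc.ch j hj), hc.hm, hc.hω,
        fun i hi => (itP2 h4).2 (hc.bd i hi), fun e he => ?_⟩
      rcases hE e he with ⟨i, rfl⟩ | ⟨i, j, k, rfl⟩ | ⟨i, j, k, rfl⟩
      · rw [gitem_one hV]
        exact (itP2 h2).2 (hc.one i he)
      · rw [gitem_add hV]
        exact (itP3 (P := fun a b c => a + b = c) h3).2 (hc.add i j k he)
      · rw [gitem_mul hV]
        exact (itP5 h5).2 (hc.mul i j k he)
  rw [hI L _ N hB hN _ 0 hidx]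
  change (∃ v : ℕ → ℝ, ∀ it ∈ items c (E.map Term.toks), itP L v it) ↔ _
  constructor
  · rintro ⟨v, hv⟩
    exact ⟨_, _, _, _, (key v).1 hv⟩
  · rintro ⟨s, m, ω, a, hc⟩
    set J := j2 c E.length with hJ
    let v : ℕ → ℝ := fun k => if k ≤ J + 1 then s k else if k = J + 2 then m else
      if k = J + 3 then ω else a (k - (J + 4))
    have vs : ∀ k, k ≤ J + 1 → v k = s k := fun k hk => by simp only [v, if_pos hk]
    have vm : v (J + 2) = m := by
      simp only [v]
      rw [if_neg (by omega)]
      simp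
    have vω : v (J + 3) = ω := by
      simp only [v]
      rw [if_neg (by omega), if_neg (by omega)]
      simp
    have va : ∀ i, v (J + 4 + i) = a i := fun i => by
      simp only [v]
      rw [if_neg (by omega), if_neg (by omega), if_neg (by omega)]
      congr 1
      omega
    refine ⟨v, (key v).2 ?_⟩
    rw [vm, vω]
    have va' : (fun i => v (J + 4 + i)) = a := funext va
    rw [va']
    refine ⟨?_, ?_, ?_, ?_, hc.bd, ?_, hc.add, ?_⟩
    · rw [vs 0 (by omega)]; exact hc.s0
    · intro j hj
      rw [vs j (by omega), vs (j + 1) (by omega)]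
      exact hc.ch j hj
    · rw [vs _ (by omega), vs _ (by omega)]
      exact hc.hm
    · rw [vs _ (by omega), vs _ (by omega)]
      exact hc.hω
    · intro i hi
      rw [vs _ (by omega)]
      exact hc.one i hi
    · intro i j k hi
      rw [vs _ (by omega)]
      exact hc.mul i j k hi

end Pool.Agent.Helper54.DP.ITM
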