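import Pool.Agent.Helper54.DP.Stmts
import Pool.Agent.Helper54.DI.Defs2
import Pool.Agent.Helper54.DI.Main
import Pool.Agent.Helper54.DI.NP

namespace Pool.Agent.Helper54.DP

open Pool.Agent.Helper54.ETR hiding Cons
open Pool.Agent.Helper54.Poly
open Pool.Agent.Helper54.DI hiding PP Gad Tpl ST_PPAND ST_PPRE ST_PPEX ST_PPTRUE ST_PPALL ST_PPLE
  ST_PPAFF ST_PPREL ST_PPOUT ST_PPTUP ST_GAD ST_TPL ST_SND ST_CPL ST_INSC ST_ITM ST_TPF ST_HARD

theorem cn_constr {P N : List Form} {φ : Form} (h : Cn (P, N) φ) : Constr P N φ := by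
  induction h with
  | one i => exact Constr.one i
  | add i j k => exact Constr.add i j k
  | le i j => exact Constr.le i j
  | pos f h => exact Constr.pos f h
  | neg f h => exact Constr.neg f h
  | and _ _ h1 h2 => exact Constr.and h1 h2

theorem constr_over {Γ P N : List Form} (hP : ∀ ρ ∈ P, ρ ∈ Γ) (hN : ∀ ρ ∈ N, ρ ∈ Γ) {φ : Form}
    (h : Constr P N φ) : Over Γ φ := by
  induction h with
  | one i => exact Over.eq trivial trivial
  | add i j k => exact Over.eq ⟨trivial, trivial⟩ trivial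
  | le i j => exact Over.le trivial trivial
  | pos f h => exact Over.rel f (hP _ h)
  | neg f h => exact Over.not (Over.rel f (hN _ h))
  | and _ _ h1 h2 => exact Over.and h1 h2

theorem algebraic_iff (ρ : Form) (h : ρ.Algebraic) : Algebraic ρ := by
  induction ρ with
  | eq s t => trivial
  | and p q hp hq => exact ⟨hp h.1, hq h.2⟩
  | or p q hp hq => exact ⟨hp h.1, hq h.2⟩
  | lt s t => exact h.elim
  | le s t => exact h.elim
  | ge s t => exact h.elim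
  | gt s t => exact h.elim
  | not p hp => exact h.elim

/-- the reductions -/
def Red (P N : List Form) : Prop := ∃ f : List Bool → List Bool, PT f ∧
  Nonempty (Turing.TM2ComputableInPolyTime (fun l : List Bool => l) (fun l => l) f) ∧
  ∀ u, ∃ φ : Form, f u = φ.code ∧ Constr P N φ ∧
    ((∃ ψ : Form, u = ψ.code ∧ ∃ x : ℕ → ℝ, ψ.Holds x) ↔ ∃ x : ℕ → ℝ, φ.Holds x)

theorem back2 (hO : ST_OKF) (hP : ST_TRP) (Γ : List Form) : ∃ g : List Bool → List Bool, PT g ∧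
    Nonempty (Turing.TM2ComputableInPolyTime (fun l : List Bool => l) (fun l => l) g) ∧
    ∀ u, (∃ φ : Form, u = φ.code ∧ Over Γ φ ∧ ∃ x : ℕ → ℝ, φ.Holds x) ↔
      ∃ φ : Form, g u = φ.code ∧ ∃ x : ℕ → ℝ, φ.Holds x := by
  obtain ⟨V, W, hV, hW, hV1, hW1⟩ := hP Γ 0 []
  have hf : PT (fun u : List Bool => if V u then u else fls.code) :=
    PT.ite hV PT.id (PT.const _)
  refine ⟨fun u => if V u then u else fls.code, hf, polytime_list (fun l : List Bool => l) _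
    (fun l => (if V l then l else fls.code).reverse) (PT.reverse hf) fun _ => rfl, ?_⟩
  intro u
  change (∃ φ : Form, u = φ.code ∧ Over Γ φ ∧ ∃ x : ℕ → ℝ, φ.Holds x) ↔
    ∃ φ : Form, (if V u then u else fls.code) = φ.code ∧ ∃ x : ℕ → ℝ, φ.Holds x
  by_cases h : V u = true
  · rw [if_pos h]
    obtain ⟨φ, hφ, hok⟩ := (hV1 u).1 h
    constructor
    · rintro ⟨ψ, hψ, -, x, hx⟩
      exact ⟨ψ, hψ, x, hx⟩
    · rintro ⟨ψ, hψ, x, hx⟩
      have e2 : ψ = φ := code_injective (hψ.symm.trans hφ)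
      exact ⟨ψ, hψ, by rw [e2]; exact (hO Γ φ).1 hok, x, hx⟩
  · rw [if_neg h]
    constructor
    · rintro ⟨ψ, hψ, hov, x, hx⟩
      exact absurd ((hV1 u).2 ⟨ψ, hψ, (hO Γ ψ).2 hov⟩) h
    · rintro ⟨ψ, hψ, x, hx⟩
      rw [← code_injective hψ] at hx
      exact absurd hx (fls_not x)

theorem red_of_not (hG : ST_GEO) (hD : ST_GAD) (hH : ST_HARD) (hF : ST_SAF) (hL : ST_SLF)
    (ρ : Form) (h : ¬ SemiLin ρ) : Red [ρ] [ρ] := by
  obtain ⟨k, hk⟩ := exists_fbelow ρ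
  have hg : Gad ([ρ], [ρ]) := hD ([ρ], [ρ]) ρ k (by simp) (by simp) hk
    (hG k _ (hF ρ k hk) fun h1 => h (hL ρ k hk h1))
  obtain ⟨f, hf, hf2, h3⟩ := hH _ hg
  refine ⟨f, hf, hf2, fun u => ?_⟩
  obtain ⟨φ, h4, h5, h6⟩ := h3 u
  exact ⟨φ, h4, cn_constr h5, h6⟩

theorem red_of_alg (hG : ST_GEOP) (hD : ST_GADP) (hH : ST_HARD) (hF : ST_ACF) (hL : ST_SLF)
    (ρ : Form) (h : ¬ SemiLin ρ) (ha : ρ.Algebraic) : Red [ρ] [] := by
  obtain ⟨k, hk⟩ := exists_fbelow ρ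
  have hg : Gad ([ρ], []) := hD ([ρ], []) ρ k (by simp) hk
    (hG k _ (hF ρ k hk (algebraic_iff ρ ha)) fun h1 => h (hL ρ k hk h1))
  obtain ⟨f, hf, hf2, h3⟩ := hH _ hg
  refine ⟨f, hf, hf2, fun u => ?_⟩
  obtain ⟨φ, h4, h5, h6⟩ := h3 u
  exact ⟨φ, h4, cn_constr h5, h6⟩

/-- the dichotomy -/
def ST_MAIN2 : Prop :=
  (∀ Γ : List Form, (∀ ρ ∈ Γ, SemiLin ρ) →
    InNP {u | ∃ φ : Form, u = φ.code ∧ Over Γ φ ∧ ∃ x : ℕ → ℝ, φ.Holds x}) ∧
  (∀ Γ : List Form, (∃ ρ ∈ Γ, ¬ SemiLin ρ) →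
    (InNP {u | ∃ φ : Form, u = φ.code ∧ Over Γ φ ∧ ∃ x : ℕ → ℝ, φ.Holds x} ↔
      InNP {u | ∃ φ : Form, u = φ.code ∧ ∃ x : ℕ → ℝ, φ.Holds x})) ∧
  ∀ (ρ : Form) (P N : List Form), ¬ SemiLin ρ → ρ ∈ P → (ρ ∈ N ∨ ρ.Algebraic) →
    ∃ f : List Bool → List Bool,
      Nonempty (Turing.TM2ComputableInPolyTime (fun l : List Bool => l) (fun l => l) f) ∧
      ∀ u, ∃ φ : Form, f u = φ.code ∧ Constr P N φ ∧
        ((∃ ψ : Form, u = ψ.code ∧ ∃ x : ℕ → ℝ, ψ.Holds x) ↔ ∃ x : ℕ → ℝ, φ.Holds x)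

theorem constr_mono {P N P' N' : List Form} (hP : ∀ ρ ∈ P, ρ ∈ P') (hN : ∀ ρ ∈ N, ρ ∈ N')
    {φ : Form} (h : Constr P N φ) : Constr P' N' φ := by
  induction h with
  | one i => exact Constr.one i
  | add i j k => exact Constr.add i j k
  | le i j => exact Constr.le i j
  | pos f h => exact Constr.pos f (hP _ h)
  | neg f h => exact Constr.neg f (hN _ h)
  | and _ _ h1 h2 => exact Constr.and h1 h2

theorem st_MAIN2 (hG : ST_GEO) (hD : ST_GAD) (hGP : ST_GEOP) (hDP : ST_GADP) (hH : ST_HARD)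
    (hF : ST_SAF) (hA : ST_ACF) (hL : ST_SLF) (hN : ST_NP) (hO : ST_OKF) (hP : ST_TRP) :
    ST_MAIN2 := by
  refine ⟨hN, ?_, ?_⟩
  · rintro Γ ⟨ρ, hρ, hns⟩
    obtain ⟨f, hf, -, hf1⟩ := red_of_not hG hD hH hF hL ρ hns
    obtain ⟨g, hg, -, hg1⟩ := back2 hO hP Γ
    constructor
    · intro h
      have h1 := inNP_reduce h hf
      have h2 : {u | f u ∈ {u | ∃ φ : Form, u = φ.code ∧ Over Γ φ ∧ ∃ x : ℕ → ℝ, φ.Holds x}} =
          {u | ∃ φ : Form, u = φ.code ∧ ∃ x : ℕ → ℝ, φ.Holds x} := by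
        ext u
        obtain ⟨φ, h3, h4, h5⟩ := hf1 u
        change (∃ ψ : Form, f u = ψ.code ∧ Over Γ ψ ∧ ∃ x : ℕ → ℝ, ψ.Holds x) ↔
          ∃ ψ : Form, u = ψ.code ∧ ∃ x : ℕ → ℝ, ψ.Holds x
        rw [h5]
        constructor
        · rintro ⟨ψ, h6, -, x, hx⟩
          have e : ψ = φ := code_injective (h6.symm.trans h3)
          rw [e] at hx
          exact ⟨x, hx⟩
        · rintro ⟨x, hx⟩
          exact ⟨φ, h3, constr_over (by simpa using hρ) (by simpa using hρ) h4, x, hx⟩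
      rwa [h2] at h1
    · intro h
      have h1 := inNP_reduce h hg
      have h2 : {u | g u ∈ {u | ∃ φ : Form, u = φ.code ∧ ∃ x : ℕ → ℝ, φ.Holds x}} =
          {u | ∃ φ : Form, u = φ.code ∧ Over Γ φ ∧ ∃ x : ℕ → ℝ, φ.Holds x} := by
        ext u
        exact (hg1 u).symm
      rwa [h2] at h1
  · intro ρ P N hns hρP hρN
    rcases hρN with hρN | ha
    · obtain ⟨f, -, hf2, hf1⟩ := red_of_not hG hD hH hF hL ρ hns
      refine ⟨f, hf2, fun u => ?_⟩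
      obtain ⟨φ, h4, h5, h6⟩ := hf1 u
      exact ⟨φ, h4, constr_mono (by simpa using hρP) (by simpa using hρN) h5, h6⟩
    · obtain ⟨f, -, hf2, hf1⟩ := red_of_alg hGP hDP hH hA hL ρ hns ha
      refine ⟨f, hf2, fun u => ?_⟩
      obtain ⟨φ, h4, h5, h6⟩ := hf1 u
      exact ⟨φ, h4, constr_mono (by simpa using hρP) (by simp) h5, h6⟩

end Pool.Agent.Helper54.DP
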