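/- adapted from Helper81/DI/PPB.lean -/
import Pool.Agent.Helper54.DP.Stmts

/-! Finite conjunctions, rational linear inequalities and affine substitutions for definable
relations. -/

namespace Pool.Agent.Helper54.DP.PPB

open Finset
open Pool.Agent.Helper54.ETR hiding Cons
open Pool.Agent.Helper54.Poly
open Pool.Agent.Helper54.DI hiding PP Gad Tpl ST_PPAND ST_PPRE ST_PPEX ST_PPTRUE ST_PPALL ST_PPLE
  ST_PPAFF ST_PPREL ST_PPOUT ST_PPTUP ST_GAD ST_TPL ST_SND ST_CPL ST_INSC ST_ITM ST_TPF ST_HARD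

theorem pp_congr {Γ : Sig} {ι : Type} {P Q : (ι → ℝ) → Prop} (h : ∀ v, P v ↔ Q v)
    (hP : PP Γ P) : PP Γ Q := by
  obtain ⟨e, χ, he, hc, h1⟩ := hP
  exact ⟨e, χ, he, hc, fun v => (h v).symm.trans (h1 v)⟩

theorem st_PPALL (hAND : ST_PPAND) (hTRUE : ST_PPTRUE) : ST_PPALL := by
  intro Γ ι _ m
  induction m with
  | zero =>
    intro P _
    exact pp_congr (fun v => ⟨fun _ i => i.elim0, fun _ => trivial⟩) (hTRUE Γ ι)
  | succ m ih =>
    intro P hP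
    have h1 := ih (fun i => P i.succ) (fun i => hP i.succ)
    exact pp_congr (fun v => Fin.forall_fin_succ.symm) (hAND Γ ι _ _ (hP 0) h1)

/-- conjunctions over a finite type -/
theorem pp_all (hAND : ST_PPAND) (hTRUE : ST_PPTRUE) {Γ : Sig} {ι κ : Type} [Fintype ι]
    [Fintype κ] {P : κ → (ι → ℝ) → Prop} (hP : ∀ a, PP Γ (P a)) :
    PP Γ (fun v => ∀ a, P a v) := by
  refine pp_congr (fun v => ?_) (st_PPALL hAND hTRUE Γ ι (Fintype.card κ)
    (fun i => P ((Fintype.equivFin κ).symm i)) (fun i => hP _))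
  constructor
  · intro h a
    have := h (Fintype.equivFin κ a)
    rwa [Equiv.symm_apply_apply] at this
  · intro h i
    exact h _

/-- relations given by one constraint on the first variables -/
theorem pp_base {Γ : Sig} {k : ℕ} {χ : Form} (hc : Cn Γ χ) {P : (Fin k → ℝ) → Prop}
    (h : ∀ w : ℕ → ℝ, χ.Holds w ↔ P (fun i => w i)) : PP Γ P := by
  refine ⟨fun i => (i : ℕ), χ, fun i j hij => Fin.ext hij, hc, ?_⟩
  intro v
  constructor
  · intro hv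
    have h1 : (fun i : Fin k => ext0 v i) = v := by
      funext i
      simp [ext0]
    refine ⟨ext0 v, fun i => congrFun h1 i, (h _).2 ?_⟩
    rw [h1]
    exact hv
  · rintro ⟨w, hw, hχ⟩
    have h1 : (fun i : Fin k => w i) = v := funext hw
    have h2 := (h w).1 hχ
    rwa [h1] at h2

theorem pp_one (Γ : Sig) : PP Γ (fun v : Fin 1 → ℝ => v 0 = 1) :=
  pp_base (Cn.one 0) (fun _ => Iff.rfl)

theorem pp_add (Γ : Sig) : PP Γ (fun v : Fin 3 → ℝ => v 0 + v 1 = v 2) :=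
  pp_base (Cn.add 0 1 2) (fun _ => Iff.rfl)

theorem pp_le (Γ : Sig) : PP Γ (fun v : Fin 2 → ℝ => v 0 ≤ v 1) :=
  pp_base (Cn.le 0 1) (fun _ => Iff.rfl)

theorem pp_eq (Γ : Sig) : PP Γ (fun v : Fin 2 → ℝ => v 0 = v 1) :=
  pp_base (Cn.and (Cn.le 0 1) (Cn.le 1 0))
    (fun _ => ⟨fun h => le_antisymm h.1 h.2, fun h => ⟨le_of_eq h, le_of_eq h.symm⟩⟩)

/-- definable functions -/
def Df (Γ : Sig) {ι : Type} (F : (ι → ℝ) → ℝ) : Prop :=
  PP Γ (fun v : ι ⊕ Fin 1 → ℝ => v (Sum.inr 0) = F (fun i => v (Sum.inl i)))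

theorem df_congr {Γ : Sig} {ι : Type} {F G : (ι → ℝ) → ℝ} (h : ∀ v, F v = G v)
    (hF : Df Γ F) : Df Γ G := by
  refine pp_congr (fun v => ?_) hF
  rw [h]

/-- change of variables for definable functions -/
theorem df_re (hRE : ST_PPRE) {Γ : Sig} {ι κ : Type} [Fintype ι] [Fintype κ]
    {F : (ι → ℝ) → ℝ} (hF : Df Γ F) (g : ι → κ) : Df Γ (fun v : κ → ℝ => F (fun i => v (g i))) := by
  have := hRE Γ (κ ⊕ Fin 1) (ι ⊕ Fin 1) _ (Sum.map g id) hF
  exact this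

/-- composition of a definable relation with definable functions -/
theorem pp_comp (hAND : ST_PPAND) (hRE : ST_PPRE) (hEX : ST_PPEX) (hTRUE : ST_PPTRUE)
    {Γ : Sig} {ι κ : Type} [Fintype ι] [Fintype κ] {P : (κ → ℝ) → Prop} (hP : PP Γ P)
    {F : κ → (ι → ℝ) → ℝ} (hF : ∀ a, Df Γ (F a)) : PP Γ (fun v : ι → ℝ => P (fun a => F a v)) := by
  have h1 : PP Γ (fun v : ι ⊕ κ → ℝ => P (fun a => v (Sum.inr a))) :=
    hRE Γ (ι ⊕ κ) κ P Sum.inr hP
  have h2 : ∀ a, PP Γ (fun v : ι ⊕ κ → ℝ => v (Sum.inr a) = F a (fun i => v (Sum.inl i))) := by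
    intro a
    exact hRE Γ (ι ⊕ κ) (ι ⊕ Fin 1) _ (Sum.elim Sum.inl (fun _ => Sum.inr a)) (hF a)
  have h3 := hEX Γ ι κ _ (hAND Γ (ι ⊕ κ) _ _ h1 (pp_all hAND hTRUE h2))
  refine pp_congr (fun v => ?_) h3
  constructor
  · rintro ⟨u, hu, hu2⟩
    have h4 : u = fun a => F a v := by
      funext a
      exact hu2 a
    rw [← h4]
    exact hu
  · intro hv
    exact ⟨fun a => F a v, hv, fun a => rfl⟩

theorem df_coord (hRE : ST_PPRE) (Γ : Sig) {ι : Type} [Fintype ι] (i : ι) :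
    Df Γ (fun v : ι → ℝ => v i) := by
  have := hRE Γ (ι ⊕ Fin 1) (Fin 2) _ ![Sum.inr 0, Sum.inl i] (pp_eq Γ)
  exact this

theorem df_one (hRE : ST_PPRE) (Γ : Sig) (ι : Type) [Fintype ι] :
    Df Γ (fun _ : ι → ℝ => (1 : ℝ)) := by
  have := hRE Γ (ι ⊕ Fin 1) (Fin 1) _ (fun _ => Sum.inr 0) (pp_one Γ)
  exact this

theorem df_zero (hRE : ST_PPRE) (Γ : Sig) (ι : Type) [Fintype ι] :
    Df Γ (fun _ : ι → ℝ => (0 : ℝ)) := by
  have := hRE Γ (ι ⊕ Fin 1) (Fin 3) _ (fun _ => Sum.inr 0) (pp_add Γ)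
  refine pp_congr (fun v => ?_) this
  constructor
  · intro h
    have h1 : v (Sum.inr 0) + v (Sum.inr 0) = v (Sum.inr 0) := h
    linarith
  · intro h
    show v (Sum.inr 0) + v (Sum.inr 0) = v (Sum.inr 0)
    linarith

section
variable (hAND : ST_PPAND) (hRE : ST_PPRE) (hEX : ST_PPEX) (hTRUE : ST_PPTRUE)
include hAND hRE hEX hTRUE

theorem df_add {Γ : Sig} {ι : Type} [Fintype ι] {F G : (ι → ℝ) → ℝ} (hF : Df Γ F)
    (hG : Df Γ G) : Df Γ (fun v => F v + G v) := by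
  have h1 : ∀ a : Fin 3, Df Γ ((![fun v : ι ⊕ Fin 1 → ℝ => F (fun i => v (Sum.inl i)),
      fun v => G (fun i => v (Sum.inl i)), fun v => v (Sum.inr 0)] :
        Fin 3 → (ι ⊕ Fin 1 → ℝ) → ℝ) a) := by
    intro a
    fin_cases a
    · exact df_re hRE hF Sum.inl
    · exact df_re hRE hG Sum.inl
    · exact df_coord hRE Γ (Sum.inr 0)
  refine pp_congr (fun v => ?_) (pp_comp hAND hRE hEX hTRUE (pp_add Γ) h1)
  constructor
  · intro h
    exact Eq.symm h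
  · intro h
    exact Eq.symm h

theorem df_neg {Γ : Sig} {ι : Type} [Fintype ι] {F : (ι → ℝ) → ℝ} (hF : Df Γ F) :
    Df Γ (fun v => -F v) := by
  have h1 : ∀ a : Fin 3, Df Γ ((![fun v : ι ⊕ Fin 1 → ℝ => v (Sum.inr 0),
      fun v => F (fun i => v (Sum.inl i)), fun _ => 0] :
        Fin 3 → (ι ⊕ Fin 1 → ℝ) → ℝ) a) := by
    intro a
    fin_cases a
    · exact df_coord hRE Γ (Sum.inr 0)
    · exact df_re hRE hF Sum.inl
    · exact df_zero hRE Γ _
  refine pp_congr (fun v => ?_) (pp_comp hAND hRE hEX hTRUE (pp_add Γ) h1)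
  have h2 : (v (Sum.inr 0) + F (fun i => v (Sum.inl i)) = 0) ↔
      (v (Sum.inr 0) = -F (fun i => v (Sum.inl i))) := add_eq_zero_iff_eq_neg
  exact h2

theorem df_nmul {Γ : Sig} {ι : Type} [Fintype ι] {F : (ι → ℝ) → ℝ} (hF : Df Γ F) (n : ℕ) :
    Df Γ (fun v => (n : ℝ) * F v) := by
  induction n with
  | zero => exact df_congr (fun v => by simp) (df_zero hRE Γ ι)
  | succ n ih =>
    exact df_congr (fun v => by push_cast; ring) (df_add hAND hRE hEX hTRUE ih hF)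

theorem df_zmul {Γ : Sig} {ι : Type} [Fintype ι] {F : (ι → ℝ) → ℝ} (hF : Df Γ F) (z : ℤ) :
    Df Γ (fun v => (z : ℝ) * F v) := by
  rcases Int.eq_nat_or_neg z with ⟨n, rfl | rfl⟩
  · exact df_congr (fun v => by push_cast; ring) (df_nmul hAND hRE hEX hTRUE hF n)
  · exact df_congr (fun v => by push_cast; ring)
      (df_neg hAND hRE hEX hTRUE (df_nmul hAND hRE hEX hTRUE hF n))

theorem df_qmul {Γ : Sig} {ι : Type} [Fintype ι] {F : (ι → ℝ) → ℝ} (hF : Df Γ F) (q : ℚ) :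
    Df Γ (fun v => (q : ℝ) * F v) := by
  have h1 : ∀ a : Fin 2, Df Γ ((![fun v : ι ⊕ Fin 1 → ℝ => (q.den : ℝ) * v (Sum.inr 0),
      fun v => (q.num : ℝ) * F (fun i => v (Sum.inl i))] :
        Fin 2 → (ι ⊕ Fin 1 → ℝ) → ℝ) a) := by
    intro a
    fin_cases a
    · exact df_nmul hAND hRE hEX hTRUE (df_coord hRE Γ (Sum.inr 0)) q.den
    · exact df_zmul hAND hRE hEX hTRUE (df_re hRE hF Sum.inl) q.num
  refine pp_congr (fun v => ?_) (pp_comp hAND hRE hEX hTRUE (pp_eq Γ) h1)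
  have hd : (q.den : ℝ) ≠ 0 := by exact_mod_cast q.den_ne_zero
  have hq : (q : ℝ) = (q.num : ℝ) / (q.den : ℝ) := by
    conv_lhs => rw [← Rat.num_div_den q]
    push_cast
    rfl
  have h2 : ((q.den : ℝ) * v (Sum.inr 0) = (q.num : ℝ) * F (fun i => v (Sum.inl i))) ↔
      (v (Sum.inr 0) = (q : ℝ) * F (fun i => v (Sum.inl i))) := by
    rw [hq, div_mul_eq_mul_div, eq_div_iff hd, mul_comm (v (Sum.inr 0))]
  exact h2

theorem df_sum {Γ : Sig} {ι κ : Type} [Fintype ι] (s : Finset κ) {F : κ → (ι → ℝ) → ℝ}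
    (hF : ∀ a, Df Γ (F a)) : Df Γ (fun v => ∑ a ∈ s, F a v) := by
  classical
  induction s using Finset.induction_on with
  | empty => exact df_congr (fun v => by simp) (df_zero hRE Γ ι)
  | insert a s ha ih =>
    exact df_congr (fun v => by rw [Finset.sum_insert ha])
      (df_add hAND hRE hEX hTRUE (hF a) ih)

theorem df_const (Γ : Sig) (ι : Type) [Fintype ι] (q : ℚ) :
    Df Γ (fun _ : ι → ℝ => (q : ℝ)) :=
  df_congr (fun v => by ring) (df_qmul hAND hRE hEX hTRUE (df_one hRE Γ ι) q)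

theorem df_aff (Γ : Sig) {ι : Type} [Fintype ι] (c : ι → ℚ) (b : ℚ) :
    Df Γ (fun v : ι → ℝ => ∑ i, (c i : ℝ) * v i + b) :=
  df_add hAND hRE hEX hTRUE
    (df_sum hAND hRE hEX hTRUE Finset.univ
      (fun i => df_qmul hAND hRE hEX hTRUE (df_coord hRE Γ i) (c i)))
    (df_const hAND hRE hEX hTRUE Γ ι b)

theorem st_PPLE : ST_PPLE := by
  intro Γ ι _ c b
  have h1 : ∀ a : Fin 2, Df Γ ((![fun v : ι → ℝ => ∑ i, (c i : ℝ) * v i + (0 : ℚ),
      fun _ => (b : ℝ)] : Fin 2 → (ι → ℝ) → ℝ) a) := by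
    intro a
    fin_cases a
    · exact df_aff hAND hRE hEX hTRUE Γ c 0
    · exact df_const hAND hRE hEX hTRUE Γ ι b
  refine pp_congr (fun v => ?_) (pp_comp hAND hRE hEX hTRUE (pp_le Γ) h1)
  have h2 : (∑ i, (c i : ℝ) * v i + ((0 : ℚ) : ℝ) ≤ (b : ℝ)) ↔
      (∑ i, (c i : ℝ) * v i ≤ (b : ℝ)) := by
    rw [Rat.cast_zero, add_zero]
  exact h2

theorem st_PPAFF : ST_PPAFF := by
  intro Γ ι κ _ _ P L b hP
  exact pp_comp hAND hRE hEX hTRUE hP (fun a => df_aff hAND hRE hEX hTRUE Γ (L a) (b a))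

end

end Pool.Agent.Helper54.DP.PPB
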