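/- adapted from Helper11/DI/SND.lean -/
import Pool.Agent.Helper54.DP.Stmts

namespace Pool.Agent.Helper54.DP.SND

open Finset Filter Topology
open Pool.Agent.Helper54.ETR hiding Cons
open Pool.Agent.Helper54.Poly
open Pool.Agent.Helper54.DI hiding PP Gad Tpl ST_PPAND ST_PPRE ST_PPEX ST_PPTRUE ST_PPALL ST_PPLE
  ST_PPAFF ST_PPREL ST_PPOUT ST_PPTUP ST_GAD ST_TPL ST_SND ST_CPL ST_INSC ST_ITM ST_TPF ST_HARD

theorem snd_eta {r C δ t P2 P3 X K : ℝ} (hr : 0 < r) (hr1 : r ≤ 1) (hC0 : 0 ≤ C) (hCK : C ≤ K)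
    (hrK : 1 ≤ r * K) (hδ : 0 ≤ δ) (h2 : δ * P2 ^ 2 ≤ r / 3)
    (h3 : t * P3 ^ 2 ≤ r / 3) (hP3 : 8 * K * K ≤ P3) (hP23 : P3 ≤ P2)
    (hX : K * 4 * X ^ 3 ≤ P2) (hX0 : 0 ≤ X) :
    C * (2 * X ^ 3 * δ + 9 * t / r ^ 2) * P3 ≤ 1 := by
  have hK : 0 < K := by
    by_contra hk
    push Not at hk
    nlinarith
  have hP3p : 0 < P3 := lt_of_lt_of_le (by positivity) hP3
  have hP2p : 0 < P2 := lt_of_lt_of_le hP3p hP23
  have hX3 : 0 ≤ X ^ 3 := by positivity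
  have e1 : C * (2 * X ^ 3 * δ) * P3 ≤ 1 / 2 := by
    have a1 : C * (4 * X ^ 3) ≤ P2 := by
      calc C * (4 * X ^ 3) ≤ K * (4 * X ^ 3) := mul_le_mul_of_nonneg_right hCK (by positivity)
        _ = K * 4 * X ^ 3 := by ring
        _ ≤ P2 := hX
    have a2 : C * (4 * X ^ 3) * (δ * P3) ≤ P2 * (δ * P2) := by
      apply mul_le_mul a1 (mul_le_mul_of_nonneg_left hP23 hδ) (by positivity) hP2p.le
    have a3 : P2 * (δ * P2) ≤ 1 := by
      have : P2 * (δ * P2) = δ * P2 ^ 2 := by ring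
      rw [this]; linarith
    have a4 : C * (4 * X ^ 3) * (δ * P3) = 2 * (C * (2 * X ^ 3 * δ) * P3) := by ring
    linarith
  have e2 : C * (9 * t / r ^ 2) * P3 ≤ 1 / 2 := by
    have b1 : C * (9 * t) * P3 ≤ r ^ 2 / 2 := by
      have c1 : C * (9 * t) * P3 * P3 ≤ 3 * K * r := by
        have : C * (9 * t) * P3 * P3 = 9 * C * (t * P3 ^ 2) := by ring
        rw [this]
        calc 9 * C * (t * P3 ^ 2) ≤ 9 * C * (r / 3) := mul_le_mul_of_nonneg_left h3 (by positivity)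
          _ = 3 * C * r := by ring
          _ ≤ 3 * K * r := by nlinarith
      have c2 : 3 * K * r ≤ r ^ 2 / 2 * P3 := by
        calc 3 * K * r ≤ 4 * (r * K) * 1 := by nlinarith [mul_pos hr hK]
          _ ≤ 4 * (r * K) * (r * K) := mul_le_mul_of_nonneg_left hrK (by positivity)
          _ = r ^ 2 / 2 * (8 * K * K) := by ring
          _ ≤ r ^ 2 / 2 * P3 := mul_le_mul_of_nonneg_left hP3 (by positivity)
      exact le_of_mul_le_mul_right (le_trans c1 c2) hP3p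
    have b2 : C * (9 * t / r ^ 2) * P3 = C * (9 * t) * P3 / r ^ 2 := by ring
    rw [b2, div_le_iff₀ (by positivity)]
    linarith
  have : C * (2 * X ^ 3 * δ + 9 * t / r ^ 2) * P3
      = C * (2 * X ^ 3 * δ) * P3 + C * (9 * t / r ^ 2) * P3 := by ring
  rw [this]
  linarith

theorem snd_mul {C m δ ω X r t p q u : ℝ} (hC0 : 0 ≤ C) (hδ : 0 < δ) (hX1 : 1 ≤ X)
    (hm : m ≤ X * δ) (hω : ω ≤ 9 * δ ^ 2 * t / r ^ 2)
    (hp : |p| ≤ m) (hq : |q| ≤ m) (hu : |u| ≤ m)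
    (h : |p * q - u * δ| ≤ C * (m * (|p * q| + |u * δ|) + ω)) :
    |p / δ * (q / δ) - u / δ| ≤ C * (2 * X ^ 3 * δ + 9 * t / r ^ 2) := by
  have hX0 : 0 ≤ X := by linarith
  have e1 : p / δ * (q / δ) - u / δ = (p * q - u * δ) / δ ^ 2 := by
    field_simp
  rw [e1, abs_div, abs_of_pos (by positivity : (0:ℝ) < δ ^ 2), div_le_iff₀ (by positivity)]
  refine le_trans h ?_
  have f1 : |p * q| ≤ X ^ 2 * δ ^ 2 := by
    rw [abs_mul]
    calc |p| * |q| ≤ (X * δ) * (X * δ) :=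
          mul_le_mul (le_trans hp hm) (le_trans hq hm) (abs_nonneg _) (by positivity)
      _ = X ^ 2 * δ ^ 2 := by ring
  have f2 : |u * δ| ≤ X ^ 2 * δ ^ 2 := by
    rw [abs_mul, abs_of_pos hδ]
    calc |u| * δ ≤ (X * δ) * δ := mul_le_mul_of_nonneg_right (le_trans hu hm) hδ.le
      _ = X * 1 * δ ^ 2 := by ring
      _ ≤ X * X * δ ^ 2 := by gcongr
      _ = X ^ 2 * δ ^ 2 := by ring
  have f3 : m * (|p * q| + |u * δ|) ≤ 2 * X ^ 3 * δ * δ ^ 2 := by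
    calc m * (|p * q| + |u * δ|) ≤ (X * δ) * (X ^ 2 * δ ^ 2 + X ^ 2 * δ ^ 2) :=
          mul_le_mul hm (add_le_add f1 f2) (by positivity) (by positivity)
      _ = 2 * X ^ 3 * δ * δ ^ 2 := by ring
  have f4 : ω ≤ 9 * t / r ^ 2 * δ ^ 2 := by
    calc ω ≤ 9 * δ ^ 2 * t / r ^ 2 := hω
      _ = 9 * t / r ^ 2 * δ ^ 2 := by ring
  calc C * (m * (|p * q| + |u * δ|) + ω)
      ≤ C * (2 * X ^ 3 * δ * δ ^ 2 + 9 * t / r ^ 2 * δ ^ 2) :=
        mul_le_mul_of_nonneg_left (add_le_add f3 f4) hC0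
    _ = C * (2 * X ^ 3 * δ + 9 * t / r ^ 2) * δ ^ 2 := by ring

theorem snd_sum (E : List Term) (x : ℕ → ℝ) (η : ℝ) (h : ∀ e ∈ E, (e.eval x) ^ 2 ≤ η) :
    (E.map fun e => (e.eval x) ^ 2).sum ≤ E.length * η := by
  induction E with
  | nil => simp
  | cons e E ih =>
    simp only [List.map_cons, List.sum_cons, List.length_cons]
    have h1 := h e (by simp)
    have h2 := ih (fun e' he' => h e' (by simp [he']))
    push_cast
    linarith

theorem snd_pow {a b : ℕ} (h : a ≤ b) : (2:ℝ) ^ a ≤ 2 ^ b :=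
  pow_le_pow_right₀ (by norm_num) h

/-- an approximate solution coded by `Core` yields a solution -/
theorem st_SND (hBG : ST_BG) (hCHB : ST_CHB) : ST_SND := by
  intro Γ r C AP GM hT c0 hC hr0 c hc E hB hE hcore
  obtain ⟨s, m, ω, a, H⟩ := hcore
  by_contra hun
  obtain ⟨n, hn⟩ : ∃ n, n = E.length := ⟨_, rfl⟩
  obtain ⟨Q, hQ⟩ : ∃ Q, Q = QB n := ⟨_, rfl⟩
  have hj1 : j1 n = Q := by rw [hQ]; rfl
  obtain ⟨J3, hJ3⟩ : ∃ J, J = j3 c n := ⟨_, rfl⟩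
  obtain ⟨J2, hJ2⟩ : ∃ J, J = j2 c n := ⟨_, rfl⟩
  have hJ3' : J3 = 2 * Q + 2 * n + 3 + c := by rw [hJ3, hQ]; rfl
  have hJ2' : J2 = 3 * Q + 2 * n + 3 + 2 * c := by rw [hJ2, hQ]; rfl
  rw [← hn] at H
  have hch := hCHB r AP s (j2 c n + 1) hT.r0 hT.aps H.s0 H.ch
  have hm := H.hm
  have hω := H.hω
  have hcJ2 := H.ch (j2 c n) (Nat.lt_succ_self _)
  have hone := H.one
  have hadd := H.add
  have hmul := H.mul
  rw [← hJ2] at hch hm hω hcJ2 hone hmul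
  rw [← hJ3] at hω
  rw [hj1] at hm
  have hrp := hT.r0
  have hr1 := hT.r1
  have hC1 := hT.C1
  obtain ⟨cQ1, cQ2⟩ := hch Q (by omega)
  obtain ⟨c21, c22⟩ := hch J2 (by omega)
  obtain ⟨c31, c32⟩ := hch J3 (by omega)
  have hδ : 0 < s J2 := by
    by_contra hh
    push Not at hh
    have : s J2 * 2 ^ (6 * 2 ^ J2) ≤ 0 := mul_nonpos_of_nonpos_of_nonneg hh (by positivity)
    linarith
  have hτ : 0 < s Q := by
    by_contra hh
    push Not at hh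
    have : s Q * 2 ^ (6 * 2 ^ Q) ≤ 0 := mul_nonpos_of_nonpos_of_nonneg hh (by positivity)
    linarith
  have hτ3 : 0 < s J3 := by
    by_contra hh
    push Not at hh
    have : s J3 * 2 ^ (6 * 2 ^ J3) ≤ 0 := mul_nonpos_of_nonpos_of_nonneg hh (by positivity)
    linarith
  obtain ⟨am0, am1, -, -, -, -, am2, am3⟩ := hT.aps _ _ _ hm
  obtain ⟨aσ0, -, -, -, aω0, -, -, aω3⟩ := hT.aps _ _ _ hω
  obtain ⟨-, -, -, -, -, -, -, ac3⟩ := hT.aps _ _ _ hcJ2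
  obtain ⟨X, hX⟩ : ∃ X : ℝ, X = 2 ^ (6 * 2 ^ Q) := ⟨_, rfl⟩
  have hX1 : 1 ≤ X := by rw [hX]; exact one_le_pow₀ (by norm_num)
  have hXp : 0 < X := by linarith
  -- `m ≤ X δ`
  have hmX : m ≤ X * s J2 := by
    have h1 : m * (3 * r) ≤ m * (s Q * X) := by
      rw [hX]; exact mul_le_mul_of_nonneg_left cQ2 am0
    have h2 : m * (s Q * X) = (m * s Q) * X := by ring
    have h3 : (m * s Q) * X ≤ 3 * (r * s J2) * X := mul_le_mul_of_nonneg_right am2 hXp.le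
    have h4 : (3 * r) * m ≤ (3 * r) * (X * s J2) := by nlinarith
    exact le_of_mul_le_mul_left h4 (by positivity)
  -- `δ ≤ m`
  have hδm : s J2 ≤ m := by
    have h0 : (4:ℝ) ≤ 2 ^ (2 * 2 ^ Q) := by
      calc (4:ℝ) = 2 ^ 2 := by norm_num
        _ ≤ 2 ^ (2 * 2 ^ Q) := snd_pow (by have := Nat.one_le_two_pow (n := Q); omega)
    have h1 : s Q * 4 ≤ r / 3 := by
      calc s Q * 4 ≤ s Q * 2 ^ (2 * 2 ^ Q) := mul_le_mul_of_nonneg_left h0 hτ.le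
        _ ≤ r / 3 := by linarith
    have h2 : r * s J2 ≤ r * m := by
      calc r * s J2 ≤ 3 * (m * s Q) := am3
        _ = m * (3 * s Q) := by ring
        _ ≤ m * r := mul_le_mul_of_nonneg_left (by linarith) am0
        _ = r * m := by ring
    exact le_of_mul_le_mul_left h2 hrp
  -- `ω ≤ 9 δ^2 τ' / r^2`
  have hωb : ω ≤ 9 * (s J2) ^ 2 * s J3 / r ^ 2 := by
    rw [le_div_iff₀ (by positivity)]
    have h1 : (r * s (J2 + 1)) * s J3 ≤ (3 * (s J2 * s J2)) * s J3 :=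
      mul_le_mul_of_nonneg_right ac3 hτ3.le
    have h2 : r * (r * ω) ≤ r * (3 * (s (J2 + 1) * s J3)) := mul_le_mul_of_nonneg_left aω3 hrp.le
    nlinarith
  obtain ⟨P3, hP3⟩ : ∃ P : ℝ, P = 2 ^ 2 ^ J3 := ⟨_, rfl⟩
  obtain ⟨P2, hP2⟩ : ∃ P : ℝ, P = 2 ^ 2 ^ J2 := ⟨_, rfl⟩
  obtain ⟨K, hK⟩ : ∃ K : ℝ, K = 2 ^ c0 := ⟨_, rfl⟩
  have g2 : s J2 * P2 ^ 2 ≤ r / 3 := by
    rw [hP2, ← pow_mul, mul_comm (2 ^ J2) 2]; linarith
  have g3 : s J3 * P3 ^ 2 ≤ r / 3 := by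
    rw [hP3, ← pow_mul, mul_comm (2 ^ J3) 2]; linarith
  have hcc : c0 < 2 ^ c0 := Nat.lt_two_pow_self
  have k3 : 8 * K * K ≤ P3 := by
    rw [hK, hP3]
    calc 8 * (2:ℝ) ^ c0 * 2 ^ c0 = 2 ^ (2 * c0 + 3) := by rw [pow_add, two_mul, pow_add]; ring
      _ ≤ 2 ^ 2 ^ J3 := snd_pow (by
          have h1 : 2 * c0 + 3 < 2 ^ (2 * c0 + 3) := Nat.lt_two_pow_self
          have h2 : 2 ^ (2 * c0 + 3) ≤ 2 ^ J3 := Nat.pow_le_pow_right (by norm_num) (by omega)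
          omega)
  have k23 : P3 ≤ P2 := by
    rw [hP3, hP2]
    exact snd_pow (Nat.pow_le_pow_right (by norm_num) (by omega))
  have kX : K * 4 * X ^ 3 ≤ P2 := by
    rw [hK, hP2, hX]
    calc (2:ℝ) ^ c0 * 4 * (2 ^ (6 * 2 ^ Q)) ^ 3 = 2 ^ (c0 + 2 + 18 * 2 ^ Q) := by
          rw [← pow_mul, pow_add, pow_add]
          have : 6 * 2 ^ Q * 3 = 18 * 2 ^ Q := by ring
          rw [this]; norm_num
      _ ≤ 2 ^ 2 ^ J2 := snd_pow (by
          have h1 : 2 ^ (Q + c0 + 5) ≤ 2 ^ J2 := Nat.pow_le_pow_right (by norm_num) (by omega)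
          have h2 : 2 ^ (Q + c0 + 5) = 32 * (2 ^ Q * 2 ^ c0) := by rw [pow_add, pow_add]; ring
          have h3 : 1 ≤ 2 ^ Q := Nat.one_le_two_pow
          have h4 : 1 ≤ 2 ^ c0 := Nat.one_le_two_pow
          nlinarith)
  have hη := snd_eta (X := X) hrp hr1 (by linarith : (0:ℝ) ≤ C) (hK ▸ hC) (hK ▸ hr0) hδ.le g2 g3 k3 k23
    kX hXp.le
  obtain ⟨η, hηd⟩ : ∃ η : ℝ, η = C * (2 * X ^ 3 * s J2 + 9 * s J3 / r ^ 2) := ⟨_, rfl⟩
  rw [← hηd] at hη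
  have hη0 : 0 ≤ η := by rw [hηd]; positivity
  have hab : ∀ i < n, |a i| ≤ m := fun i hi => abs_le.2 (H.bd i hi)
  -- the candidate
  obtain ⟨x, hx⟩ : ∃ x : ℕ → ℝ, x = fun i => a i / s J2 := ⟨_, rfl⟩
  have hxi : ∀ i, x i = a i / s J2 := fun i => by rw [hx]
  have hxb : ∀ i < E.length, |x i| ≤ 2 ^ 2 ^ (Q + 3) := by
    intro i hi
    rw [hxi, abs_div, abs_of_pos hδ, div_le_iff₀ hδ]
    calc |a i| ≤ m := hab i (by omega)
      _ ≤ X * s J2 := hmX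
      _ ≤ 2 ^ 2 ^ (Q + 3) * s J2 := by
        apply mul_le_mul_of_nonneg_right _ hδ.le
        rw [hX]
        exact snd_pow (by rw [pow_add]; omega)
  have hev : ∀ e ∈ E, (e.eval x) ^ 2 ≤ η ^ 2 := by
    intro e he
    have hbe := hE e he
    rcases hB e he with ⟨i, rfl⟩ | ⟨i, j, k, rfl⟩ | ⟨i, j, k, rfl⟩
    · have h1 := hone i he
      have h2 : (gOne i).eval x = 0 := by
        change x i - 1 = 0
        rw [hxi, h1, div_self hδ.ne', sub_self]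
      rw [h2, zero_pow (by norm_num)]; exact sq_nonneg η
    · have h1 := hadd i j k he
      have h2 : (gAdd i j k).eval x = 0 := by
        change x i + x j - x k = 0
        rw [hxi, hxi, hxi, ← h1]; ring
      rw [h2, zero_pow (by norm_num)]; exact sq_nonneg η
    · have h1 := hmul i j k he
      obtain ⟨⟨bi, bj⟩, bk⟩ : (i < E.length ∧ j < E.length) ∧ k < E.length := hbe
      rw [← hn] at bi bj bk
      have h3 := hT.gms _ _ _ _ _ h1 aω0 m am1 (hab i bi) (hab j bj) (hab k bk)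
        (by rw [abs_of_pos hδ]; exact hδm)
      have h4 := snd_mul (X := X) (r := r) (t := s J3) (by linarith : (0:ℝ) ≤ C) hδ hX1 hmX hωb
        (hab i bi) (hab j bj) (hab k bk) h3
      have h2 : (gMul i j k).eval x = a i / s J2 * (a j / s J2) - a k / s J2 := by
        change x i * x j - x k = _
        rw [hxi, hxi, hxi]
      rw [h2, ← sq_abs (a i / s J2 * (a j / s J2) - a k / s J2)]
      rw [← hηd] at h4
      exact pow_le_pow_left₀ (abs_nonneg _) h4 2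
  have hsum := snd_sum E x (η ^ 2) hev
  have hgap := (hBG E hB hE).2 hun (Q + 3) x hxb
  rw [← hn, ← hQ] at hgap
  rw [← hn] at hsum
  have hR : (2:ℝ) ^ 2 ^ (Q + 3 + n + Q) ≤ P3 := by
    rw [hP3]
    exact snd_pow (Nat.pow_le_pow_right (by norm_num) (by omega))
  have hP3p : 0 < P3 := by rw [hP3]; positivity
  have hnP : (n:ℝ) < P3 := by
    rw [hP3]
    have h1 : n < 2 ^ n := Nat.lt_two_pow_self
    have h2 : 2 ^ n ≤ 2 ^ 2 ^ J3 := Nat.pow_le_pow_right (by norm_num) (by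
      have h3 : J3 < 2 ^ J3 := Nat.lt_two_pow_self
      omega)
    have h4 : n < 2 ^ 2 ^ J3 := lt_of_lt_of_le h1 h2
    exact_mod_cast h4
  have hfin : 1 ≤ (n:ℝ) * η ^ 2 * P3 := by
    calc (1:ℝ) ≤ _ := hgap
      _ ≤ ((n:ℝ) * η ^ 2) * P3 := by
        apply mul_le_mul hsum hR (by positivity) (by positivity)
  have hηp : 0 < η ^ 2 := by
    by_contra hh
    push Not at hh
    have h0 : η ^ 2 = 0 := le_antisymm hh (by positivity)
    rw [h0] at hfin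
    simp at hfin
    linarith
  have h5 : (n:ℝ) * η ^ 2 * P3 < P3 * η ^ 2 * P3 := by
    have : (n:ℝ) * (η ^ 2 * P3) < P3 * (η ^ 2 * P3) := mul_lt_mul_of_pos_right hnP (by positivity)
    linarith
  have h6 : P3 * η ^ 2 * P3 = (η * P3) ^ 2 := by ring
  have h7 : (η * P3) ^ 2 ≤ 1 := by
    have := pow_le_pow_left₀ (by positivity) hη 2
    simpa using this
  linarith

end Pool.Agent.Helper54.DP.SND
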