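/- adapted from Helper67/DI/TPF.lean -/
import Pool.Agent.Helper54.DP.Stmts

/-! The templates exist. -/

namespace Pool.Agent.Helper54.DP.TPF

open Finset
open Pool.Agent.Helper54.ETR hiding Cons
open Pool.Agent.Helper54.Poly
open Pool.Agent.Helper54.DI hiding PP Gad Tpl ST_PPAND ST_PPRE ST_PPEX ST_PPTRUE ST_PPALL ST_PPLE
  ST_PPAFF ST_PPREL ST_PPOUT ST_PPTUP ST_GAD ST_TPL ST_SND ST_CPL ST_INSC ST_ITM ST_TPF ST_HARD

theorem fbelow_mono {n m : ℕ} (h : n ≤ m) (p : Form) (hp : FBelow n p) : FBelow m p :=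
  fun a ha => ⟨below_mono h _ (hp a ha).1, below_mono h _ (hp a ha).2⟩

theorem pp_lin (hLE : ST_PPLE) (Γ : Sig) (n : ℕ) (c : Fin n → ℚ)
    (P : (Fin n → ℝ) → Prop) (hP : ∀ v, P v ↔ ∑ i, (c i : ℝ) * v i ≤ ((0 : ℚ) : ℝ)) : PP Γ P := by
  have h := hLE Γ (Fin n) c 0
  have : P = fun v : Fin n → ℝ => ∑ i, (c i : ℝ) * v i ≤ ((0 : ℚ) : ℝ) := by
    funext v
    exact propext (hP v)
  rw [this]
  exact h

theorem st_TPF (hOUT : ST_PPOUT) (hLE : ST_PPLE) (hAND : ST_PPAND) : ST_TPF := by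
  intro Γ r C AP GM T
  have hE : PP Γ (fun v : Fin 2 → ℝ => v 0 = v 1) := by
    have h1 : PP Γ (fun v : Fin 2 → ℝ => v 0 ≤ v 1) :=
      pp_lin hLE Γ 2 ![1, -1] _ (fun v => by
        simp only [Fin.sum_univ_two, Matrix.cons_val_zero, Matrix.cons_val_one]
        push_cast
        constructor <;> intro h <;> linarith)
    have h2 : PP Γ (fun v : Fin 2 → ℝ => v 1 ≤ v 0) :=
      pp_lin hLE Γ 2 ![-1, 1] _ (fun v => by
        simp only [Fin.sum_univ_two, Matrix.cons_val_zero, Matrix.cons_val_one]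
        push_cast
        constructor <;> intro h <;> linarith)
    have h3 := hAND Γ (Fin 2) _ _ h1 h2
    have : (fun v : Fin 2 → ℝ => v 0 = v 1) = fun v => v 0 ≤ v 1 ∧ v 1 ≤ v 0 := by
      funext v
      exact propext le_antisymm_iff
    rw [this]
    exact h3
  have hS : PP Γ (fun v : Fin 3 → ℝ => v 0 + v 1 = v 2) := by
    have h1 : PP Γ (fun v : Fin 3 → ℝ => v 0 + v 1 ≤ v 2) :=
      pp_lin hLE Γ 3 ![1, 1, -1] _ (fun v => by
        simp only [Fin.sum_univ_three, Matrix.cons_val_zero, Matrix.cons_val_one,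
          Matrix.cons_val_two, Matrix.tail_cons, Matrix.head_cons, Matrix.cons_val]
        push_cast
        constructor <;> intro h <;> linarith)
    have h2 : PP Γ (fun v : Fin 3 → ℝ => v 2 ≤ v 0 + v 1) :=
      pp_lin hLE Γ 3 ![-1, -1, 1] _ (fun v => by
        simp only [Fin.sum_univ_three, Matrix.cons_val_zero, Matrix.cons_val_one,
          Matrix.cons_val_two, Matrix.tail_cons, Matrix.head_cons, Matrix.cons_val]
        push_cast
        constructor <;> intro h <;> linarith)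
    have h3 := hAND Γ (Fin 3) _ _ h1 h2
    have : (fun v : Fin 3 → ℝ => v 0 + v 1 = v 2) = fun v => v 0 + v 1 ≤ v 2 ∧ v 2 ≤ v 0 + v 1 := by
      funext v
      exact propext le_antisymm_iff
    rw [this]
    exact h3
  have hB : PP Γ (fun v : Fin 2 → ℝ => -v 1 ≤ v 0 ∧ v 0 ≤ v 1) := by
    have h1 : PP Γ (fun v : Fin 2 → ℝ => -v 1 ≤ v 0) :=
      pp_lin hLE Γ 2 ![-1, -1] _ (fun v => by
        simp only [Fin.sum_univ_two, Matrix.cons_val_zero, Matrix.cons_val_one]
        push_cast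
        constructor <;> intro h <;> linarith)
    have h2 : PP Γ (fun v : Fin 2 → ℝ => v 0 ≤ v 1) :=
      pp_lin hLE Γ 2 ![1, -1] _ (fun v => by
        simp only [Fin.sum_univ_two, Matrix.cons_val_zero, Matrix.cons_val_one]
        push_cast
        constructor <;> intro h <;> linarith)
    exact hAND Γ (Fin 2) _ _ h1 h2
  obtain ⟨χ0, N0, c0, b0, -, e0⟩ := hOUT Γ 1 _ T.pp0
  obtain ⟨χ1, N1, c1, b1, -, e1⟩ := hOUT Γ 3 _ T.ppA
  obtain ⟨χ2, N2, c2, b2, -, e2⟩ := hOUT Γ 2 _ hE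
  obtain ⟨χ3, N3, c3, b3, -, e3⟩ := hOUT Γ 3 _ hS
  obtain ⟨χ4, N4, c4, b4, -, e4⟩ := hOUT Γ 2 _ hB
  obtain ⟨χ5, N5, c5, b5, -, e5⟩ := hOUT Γ 5 _ T.ppG
  refine ⟨[χ0, χ1, χ2, χ3, χ4, χ5], N0 + N1 + N2 + N3 + N4 + N5 + 1, rfl, ?_, by omega, ?_, ?_, ?_,
    ?_, ?_, ?_⟩
  · intro ψ hψ
    simp only [List.mem_cons, List.not_mem_nil, or_false] at hψ
    rcases hψ with rfl | rfl | rfl | rfl | rfl | rfl
    · exact ⟨fbelow_mono (by omega) _ b0, c0⟩
    · exact ⟨fbelow_mono (by omega) _ b1, c1⟩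
    · exact ⟨fbelow_mono (by omega) _ b2, c2⟩
    · exact ⟨fbelow_mono (by omega) _ b3, c3⟩
    · exact ⟨fbelow_mono (by omega) _ b4, c4⟩
    · exact ⟨fbelow_mono (by omega) _ b5, c5⟩
  · intro s
    have h := e0 ![s]
    simp only [Fin.forall_fin_one, Matrix.cons_val_fin_one, Fin.val_zero] at h
    exact h
  · intro a b c
    have h := e1 ![a, b, c]
    simp only [Fin.forall_fin_succ, Fin.forall_fin_zero, Matrix.cons_val_zero, Matrix.cons_val_one,
      Matrix.cons_val_two, Matrix.tail_cons, Matrix.head_cons, Matrix.cons_val, and_assoc,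
      Fin.succ_zero_eq_one, true_and] at h
    exact h
  · intro a b
    have h := e2 ![a, b]
    simp only [Fin.forall_fin_succ, Fin.forall_fin_zero, Matrix.cons_val_zero, Matrix.cons_val_one,
      Matrix.cons_val, and_assoc, Fin.succ_zero_eq_one, true_and] at h
    exact h
  · intro a b c
    have h := e3 ![a, b, c]
    simp only [Fin.forall_fin_succ, Fin.forall_fin_zero, Matrix.cons_val_zero, Matrix.cons_val_one,
      Matrix.cons_val_two, Matrix.tail_cons, Matrix.head_cons, Matrix.cons_val, and_assoc,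
      Fin.succ_zero_eq_one, true_and] at h
    exact h
  · intro a m
    have h := e4 ![a, m]
    simp only [Fin.forall_fin_succ, Fin.forall_fin_zero, Matrix.cons_val_zero, Matrix.cons_val_one,
      Matrix.cons_val, and_assoc, Fin.succ_zero_eq_one, true_and] at h
    exact h
  · intro a b c δ ω
    have h := e5 ![a, b, c, δ, ω]
    simp only [Fin.forall_fin_succ, Fin.forall_fin_zero, Matrix.cons_val_zero, Matrix.cons_val_one,
      Matrix.cons_val, and_assoc, Fin.succ_zero_eq_one, true_and] at h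
    exact h

end Pool.Agent.Helper54.DP.TPF
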