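/- adapted from Helper94/DI/TPL.lean -/
import Pool.Agent.Helper54.DP.Stmts

/-! Approximate products from a curve gadget. -/

namespace Pool.Agent.Helper54.DP.TPL

open Finset Filter Topology
open Pool.Agent.Helper54.ETR hiding Cons
open Pool.Agent.Helper54.Poly
open Pool.Agent.Helper54.DI hiding PP Gad Tpl ST_PPAND ST_PPRE ST_PPEX ST_PPTRUE ST_PPALL ST_PPLE
  ST_PPAFF ST_PPREL ST_PPOUT ST_PPTUP ST_GAD ST_TPL ST_SND ST_CPL ST_INSC ST_ITM ST_TPF ST_HARD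

/-- rational affine functions -/
def RA {ι : Type} [Fintype ι] (f : (ι → ℝ) → ℝ) : Prop :=
  ∃ (L : ι → ℚ) (b : ℚ), ∀ v, f v = ∑ i, (L i : ℝ) * v i + b

theorem RA.coord {ι : Type} [Fintype ι] (j : ι) : RA (fun v : ι → ℝ => v j) := by
  classical
  refine ⟨Pi.single j 1, 0, fun v => ?_⟩
  rw [Finset.sum_eq_single j]
  · simp
  · intro i _ hi
    simp [hi]
  · intro h
    exact absurd (Finset.mem_univ j) h

theorem RA.const {ι : Type} [Fintype ι] (q : ℚ) : RA (fun _ : ι → ℝ => (q : ℝ)) :=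
  ⟨fun _ => 0, q, fun v => by simp⟩

theorem RA.add {ι : Type} [Fintype ι] {f g : (ι → ℝ) → ℝ} (hf : RA f) (hg : RA g) :
    RA (fun v => f v + g v) := by
  obtain ⟨L, b, h⟩ := hf
  obtain ⟨L', b', h'⟩ := hg
  refine ⟨fun i => L i + L' i, b + b', fun v => ?_⟩
  beta_reduce
  rw [h, h']
  push_cast
  simp only [add_mul, Finset.sum_add_distrib]
  ring

theorem RA.smul {ι : Type} [Fintype ι] {f : (ι → ℝ) → ℝ} (q : ℚ) (hf : RA f) :
    RA (fun v => (q : ℝ) * f v) := by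
  obtain ⟨L, b, h⟩ := hf
  refine ⟨fun i => q * L i, q * b, fun v => ?_⟩
  beta_reduce
  rw [h]
  push_cast
  rw [mul_add, Finset.mul_sum]
  simp only [mul_assoc]

theorem RA.sub {ι : Type} [Fintype ι] {f g : (ι → ℝ) → ℝ} (hf : RA f) (hg : RA g) :
    RA (fun v => f v - g v) := by
  obtain ⟨L, b, h⟩ := hf.add (hg.smul (-1))
  refine ⟨L, b, fun v => ?_⟩
  rw [← h]
  push_cast
  ring

theorem RA.congr {ι : Type} [Fintype ι] {f g : (ι → ℝ) → ℝ} (hf : RA f) (h : ∀ v, g v = f v) :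
    RA g := by
  obtain ⟨L, b, h'⟩ := hf
  exact ⟨L, b, fun v => (h v).trans (h' v)⟩

section pp

variable {Γ : Sig}

theorem ppaff (h7 : ST_PPAFF) {ι κ : Type} [Fintype ι] [Fintype κ] {P : (κ → ℝ) → Prop}
    (hP : PP Γ P) (f : κ → (ι → ℝ) → ℝ) (hf : ∀ a, RA (f a)) :
    PP Γ (fun v : ι → ℝ => P (fun a => f a v)) := by
  choose L b h using hf
  have h1 := h7 Γ ι κ P L b hP
  have h2 : (fun v : ι → ℝ => P (fun a => f a v)) =
      fun v : ι → ℝ => P (fun a => ∑ i, (L a i : ℝ) * v i + b a) := by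
    funext v
    have : (fun a => f a v) = fun a => ∑ i, (L a i : ℝ) * v i + b a := by
      funext a
      exact h a v
    rw [this]
  rw [h2]
  exact h1

theorem pple (h6 : ST_PPLE) {ι : Type} [Fintype ι] {f g : (ι → ℝ) → ℝ} (hf : RA f)
    (hg : RA g) : PP Γ (fun v : ι → ℝ => f v ≤ g v) := by
  obtain ⟨L, b, h⟩ := hf.sub hg
  have h1 := h6 Γ ι L (-b)
  have h2 : (fun v : ι → ℝ => f v ≤ g v) = fun v : ι → ℝ => ∑ i, (L i : ℝ) * v i ≤
      ((-b : ℚ) : ℝ) := by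
    funext v
    have := h v
    push_cast
    apply propext
    constructor
    · intro h3
      linarith
    · intro h3
      linarith
  rw [h2]
  exact h1

theorem ppeq (h2 : ST_PPAND) (h6 : ST_PPLE) {ι : Type} [Fintype ι] {f g : (ι → ℝ) → ℝ}
    (hf : RA f) (hg : RA g) : PP Γ (fun v : ι → ℝ => f v = g v) := by
  have h := h2 Γ ι _ _ (pple (Γ := Γ) h6 hf hg) (pple (Γ := Γ) h6 hg hf)
  have h' : (fun v : ι → ℝ => f v = g v) = fun v => f v ≤ g v ∧ g v ≤ f v := by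
    funext v
    exact propext le_antisymm_iff
  rw [h']
  exact h

theorem ppR (h7 : ST_PPAFF) {ι : Type} [Fintype ι] {R : (Fin 3 → ℝ) → Prop} (hR : PP Γ R)
    {f0 f1 f2 : (ι → ℝ) → ℝ} (h0 : RA f0) (h1 : RA f1) (h2 : RA f2) :
    PP Γ (fun v : ι → ℝ => R ![f0 v, f1 v, f2 v]) := by
  have h := ppaff h7 hR ![f0, f1, f2] (by
    intro a
    fin_cases a
    · exact h0
    · exact h1
    · exact h2)
  have h' : (fun v : ι → ℝ => R ![f0 v, f1 v, f2 v]) =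
      fun v : ι → ℝ => R (fun a => (![f0, f1, f2] : Fin 3 → (ι → ℝ) → ℝ) a v) := by
    funext v
    have : ![f0 v, f1 v, f2 v] = fun a => (![f0, f1, f2] : Fin 3 → (ι → ℝ) → ℝ) a v := by
      funext a
      fin_cases a <;> rfl
    rw [this]
  rw [h']
  exact h

/-- `z` is an approximation of the second difference at `a`, `b` -/
def Val (R : (Fin 3 → ℝ) → Prop) (e a b z : ℝ) : Prop :=
  ∃ y : Fin 4 → ℝ, R ![a + b, y 0, e] ∧ R ![a, y 1, e] ∧ R ![b, y 2, e] ∧ R ![0, y 3, e] ∧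
    z = y 0 - y 1 - y 2 + y 3

theorem ppVal (h2 : ST_PPAND) (h4 : ST_PPEX) (h6 : ST_PPLE) (h7 : ST_PPAFF)
    {R : (Fin 3 → ℝ) → Prop} (hR : PP Γ R) {ι : Type} [Fintype ι]
    {e a b z : (ι → ℝ) → ℝ} (he : RA e) (ha : RA a) (hb : RA b) (hz : RA z) :
    PP Γ (fun v : ι → ℝ => Val R (e v) (a v) (b v) (z v)) := by
  have h : PP Γ (fun v : Fin 4 → ℝ => Val R (v 0) (v 1) (v 2) (v 3)) := by
    have hc : ∀ j : Fin 4 ⊕ Fin 4, RA (fun w : Fin 4 ⊕ Fin 4 → ℝ => w j) := fun j => RA.coord j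
    have h0 : RA (fun _ : Fin 4 ⊕ Fin 4 → ℝ => (0 : ℝ)) := (RA.const 0).congr (fun _ => by simp)
    exact h4 Γ (Fin 4) (Fin 4) (fun w => R ![w (Sum.inl 1) + w (Sum.inl 2), w (Sum.inr 0),
        w (Sum.inl 0)] ∧ R ![w (Sum.inl 1), w (Sum.inr 1), w (Sum.inl 0)] ∧
        R ![w (Sum.inl 2), w (Sum.inr 2), w (Sum.inl 0)] ∧
        R ![0, w (Sum.inr 3), w (Sum.inl 0)] ∧
        w (Sum.inl 3) = w (Sum.inr 0) - w (Sum.inr 1) - w (Sum.inr 2) + w (Sum.inr 3))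
      (h2 _ _ _ _ (ppR h7 hR ((hc _).add (hc _)) (hc _) (hc _))
        (h2 _ _ _ _ (ppR h7 hR (hc _) (hc _) (hc _))
        (h2 _ _ _ _ (ppR h7 hR (hc _) (hc _) (hc _))
        (h2 _ _ _ _ (ppR h7 hR h0 (hc _) (hc _))
        (ppeq h2 h6 (hc _) ((((hc _).sub (hc _)).sub (hc _)).add (hc _)))))))
  exact ppaff h7 h ![e, a, b, z] (by
    intro i
    fin_cases i
    · exact he
    · exact ha
    · exact hb
    · exact hz)

end pp

/-- rough products -/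
def APr (R : (Fin 3 → ℝ) → Prop) (r : ℝ) (M : ℕ) (a b c : ℝ) : Prop :=
  0 ≤ a ∧ a ≤ r ∧ 0 ≤ b ∧ b ≤ r ∧ 0 ≤ c ∧ c ≤ r ∧ ∃ u : Fin 2 → ℝ,
    Val R (((1 / (M : ℚ) : ℚ) : ℝ) * c) a b (u 0) ∧
    Val R (((1 / (M : ℚ) : ℚ) : ℝ) * c) c r (u 1) ∧ u 0 ≤ u 1 + u 1 ∧ u 1 ≤ u 0 + u 0

/-- fine products -/
def GMr (R : (Fin 3 → ℝ) → Prop) (M : ℕ) (a b c δ ω : ℝ) : Prop :=
  ∃ u : Fin 2 → ℝ, Val R (((1 / (M : ℚ) : ℚ) : ℝ) * ω) a b (u 0) ∧
    Val R (((1 / (M : ℚ) : ℚ) : ℝ) * ω) c δ (u 1) ∧ u 0 ≤ u 1 + ω ∧ u 1 ≤ u 0 + ω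

section pp

variable {Γ : Sig}

theorem ppAPr (h2 : ST_PPAND) (h4 : ST_PPEX) (h6 : ST_PPLE) (h7 : ST_PPAFF)
    {R : (Fin 3 → ℝ) → Prop} (hR : PP Γ R) (N M : ℕ) :
    PP Γ (fun v : Fin 3 → ℝ => APr R ((1 / (N : ℚ) : ℚ) : ℝ) M (v 0) (v 1) (v 2)) := by
  have hd : ∀ j : Fin 3, RA (fun w : Fin 3 → ℝ => w j) := fun j => RA.coord j
  have hd0 : RA (fun _ : Fin 3 → ℝ => (0 : ℝ)) := (RA.const 0).congr (fun _ => by simp)
  have hdr : RA (fun _ : Fin 3 → ℝ => ((1 / (N : ℚ) : ℚ) : ℝ)) := RA.const _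
  have hc : ∀ j : Fin 3 ⊕ Fin 2, RA (fun w : Fin 3 ⊕ Fin 2 → ℝ => w j) := fun j => RA.coord j
  have hcr : RA (fun _ : Fin 3 ⊕ Fin 2 → ℝ => ((1 / (N : ℚ) : ℚ) : ℝ)) := RA.const _
  refine h2 _ _ _ _ (pple h6 hd0 (hd _)) (h2 _ _ _ _ (pple h6 (hd _) hdr)
    (h2 _ _ _ _ (pple h6 hd0 (hd _)) (h2 _ _ _ _ (pple h6 (hd _) hdr)
    (h2 _ _ _ _ (pple h6 hd0 (hd _)) (h2 _ _ _ _ (pple h6 (hd _) hdr) ?_)))))
  exact h4 Γ (Fin 3) (Fin 2) (fun w =>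
    Val R (((1 / (M : ℚ) : ℚ) : ℝ) * w (Sum.inl 2)) (w (Sum.inl 0)) (w (Sum.inl 1))
      (w (Sum.inr 0)) ∧
    Val R (((1 / (M : ℚ) : ℚ) : ℝ) * w (Sum.inl 2)) (w (Sum.inl 2)) ((1 / (N : ℚ) : ℚ) : ℝ)
      (w (Sum.inr 1)) ∧
    w (Sum.inr 0) ≤ w (Sum.inr 1) + w (Sum.inr 1) ∧
    w (Sum.inr 1) ≤ w (Sum.inr 0) + w (Sum.inr 0))
    (h2 _ _ _ _ (ppVal h2 h4 h6 h7 hR ((hc _).smul _) (hc _) (hc _) (hc _))
    (h2 _ _ _ _ (ppVal h2 h4 h6 h7 hR ((hc _).smul _) (hc _) hcr (hc _))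
    (h2 _ _ _ _ (pple h6 (hc _) ((hc _).add (hc _))) (pple h6 (hc _) ((hc _).add (hc _))))))

theorem ppGMr (h2 : ST_PPAND) (h4 : ST_PPEX) (h6 : ST_PPLE) (h7 : ST_PPAFF)
    {R : (Fin 3 → ℝ) → Prop} (hR : PP Γ R) (M : ℕ) :
    PP Γ (fun v : Fin 5 → ℝ => GMr R M (v 0) (v 1) (v 2) (v 3) (v 4)) := by
  have hc : ∀ j : Fin 5 ⊕ Fin 2, RA (fun w : Fin 5 ⊕ Fin 2 → ℝ => w j) := fun j => RA.coord j
  exact h4 Γ (Fin 5) (Fin 2) (fun w =>
    Val R (((1 / (M : ℚ) : ℚ) : ℝ) * w (Sum.inl 4)) (w (Sum.inl 0)) (w (Sum.inl 1))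
      (w (Sum.inr 0)) ∧
    Val R (((1 / (M : ℚ) : ℚ) : ℝ) * w (Sum.inl 4)) (w (Sum.inl 2)) (w (Sum.inl 3))
      (w (Sum.inr 1)) ∧
    w (Sum.inr 0) ≤ w (Sum.inr 1) + w (Sum.inl 4) ∧
    w (Sum.inr 1) ≤ w (Sum.inr 0) + w (Sum.inl 4))
    (h2 _ _ _ _ (ppVal h2 h4 h6 h7 hR ((hc _).smul _) (hc _) (hc _) (hc _))
    (h2 _ _ _ _ (ppVal h2 h4 h6 h7 hR ((hc _).smul _) (hc _) (hc _) (hc _))
    (h2 _ _ _ _ (pple h6 (hc _) ((hc _).add (hc _))) (pple h6 (hc _) ((hc _).add (hc _))))))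

end pp

section est

variable {f : ℝ → ℝ} {ρ ε₀ : ℝ} {R : (Fin 3 → ℝ) → Prop}

theorem val_snd (hs : ∀ v, R v → |v 0| ≤ ρ ∧ |v 1 - f (v 0)| ≤ v 2) {e a b z : ℝ}
    (h : Val R e a b z) : |z - (f (a + b) - f a - f b + f 0)| ≤ 4 * e := by
  obtain ⟨y, h0, h1, h2, h3, rfl⟩ := h
  have k0 := (hs _ h0).2
  have k1 := (hs _ h1).2
  have k2 := (hs _ h2).2
  have k3 := (hs _ h3).2
  simp only [Matrix.cons_val_zero, Matrix.cons_val_one, Matrix.cons_val] at k0 k1 k2 k3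
  rw [abs_le] at *
  constructor <;> linarith [k0.1, k0.2, k1.1, k1.2, k2.1, k2.2, k3.1, k3.2]

theorem val_cpl (hρ : 0 < ρ) (hc : ∀ x ε : ℝ, |x| ≤ ρ → 0 < ε → ε ≤ ε₀ → R ![x, f x, ε])
    {e a b : ℝ} (he : 0 < e) (he' : e ≤ ε₀) (ha : |a| ≤ ρ) (hb : |b| ≤ ρ) (hab : |a + b| ≤ ρ) :
    Val R e a b (f (a + b) - f a - f b + f 0) :=
  ⟨![f (a + b), f a, f b, f 0], hc _ _ hab he he', hc _ _ ha he he', hc _ _ hb he he',
    hc _ _ (by simpa using hρ.le) he he', rfl⟩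

end est

theorem st_TPL (h1 : ST_Q2) (h2 : ST_PPAND) (_ : ST_PPRE) (h4 : ST_PPEX) (_ : ST_PPALL)
    (h6 : ST_PPLE) (h7 : ST_PPAFF) : ST_TPL := by
  rintro Γ ⟨f, ρ, ε₀, R, hR, hρ, hε₀, hf, hF, hs, hc⟩
  obtain ⟨r2, hr2, Λ, hΛ, hq⟩ := h1 f hf
  obtain ⟨F, hFd⟩ : ∃ F, F = iteratedDeriv 2 f 0 := ⟨_, rfl⟩
  rw [← hFd] at hF hq
  obtain ⟨q, hqd⟩ : ∃ q : ℝ → ℝ → ℝ, q = fun a b => f (a + b) - f a - f b + f 0 := ⟨_, rfl⟩
  have hq1 : ∀ a b, |a| ≤ r2 → |b| ≤ r2 →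
      |q a b - F * (a * b)| ≤ Λ * (|a| + |b|) * |a * b| := fun a b ha hb => by
    rw [hqd]
    exact hq a b ha hb
  obtain ⟨N, hN⟩ := exists_nat_ge (2 / ρ + 1 / r2 + 20 * Λ / F + 1)
  have hN1 : (1 : ℝ) ≤ N := by
    have : 0 ≤ 2 / ρ + 1 / r2 + 20 * Λ / F := by positivity
    linarith
  have hN0 : (0 : ℝ) < N := by linarith
  obtain ⟨r, hrd⟩ : ∃ r : ℝ, r = ((1 / (N : ℚ) : ℚ) : ℝ) := ⟨_, rfl⟩
  have hr' : r = 1 / N := by
    rw [hrd]
    push_cast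
    rfl
  have hr0 : 0 < r := by
    rw [hr']
    positivity
  have hrN : r * N = 1 := by
    rw [hr']
    field_simp
  have hr1 : r ≤ 1 := by nlinarith
  have hrρ : 2 * r ≤ ρ := by
    have h : 2 / ρ ≤ N := by
      have : 0 ≤ 1 / r2 + 20 * Λ / F := by positivity
      linarith
    rw [div_le_iff₀ hρ] at h
    nlinarith
  have hrr : r ≤ r2 := by
    have h : 1 / r2 ≤ N := by
      have : 0 ≤ 2 / ρ + 20 * Λ / F := by positivity
      linarith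
    rw [div_le_iff₀ hr2] at h
    nlinarith
  have hrΛ : 20 * Λ * r ≤ F := by
    have h : 20 * Λ / F ≤ N := by
      have : 0 ≤ 2 / ρ + 1 / r2 := by positivity
      linarith
    rw [div_le_iff₀ hF] at h
    nlinarith
  obtain ⟨M, hM⟩ := exists_nat_ge (80 / (F * r) + r / ε₀ + 8)
  have hM8 : (8 : ℝ) ≤ M := by
    have : 0 ≤ 80 / (F * r) + r / ε₀ := by positivity
    linarith
  have hM0 : (0 : ℝ) < M := by linarith
  have hMF : 80 ≤ M * (F * r) := by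
    have h : 80 / (F * r) ≤ M := by
      have : 0 ≤ r / ε₀ := by positivity
      linarith
    rw [div_le_iff₀ (by positivity)] at h
    exact h
  have hMe : r ≤ M * ε₀ := by
    have h : r / ε₀ ≤ M := by
      have : 0 ≤ 80 / (F * r) := by positivity
      linarith
    rw [div_le_iff₀ hε₀] at h
    exact h
  obtain ⟨κ, hκd⟩ : ∃ κ : ℝ, κ = ((1 / (M : ℚ) : ℚ) : ℝ) := ⟨_, rfl⟩
  have hκ' : κ * M = 1 := by
    rw [hκd]
    push_cast
    field_simp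
  have hκ0 : 0 < κ := by
    rw [hκd]
    push_cast
    positivity
  have hκ8 : 8 * κ ≤ 1 := by nlinarith
  have hκF : 80 * κ ≤ F * r := by nlinarith
  have hκe : κ * r ≤ ε₀ := by nlinarith
  have hqr : ∀ a b, |a| ≤ r → |b| ≤ r → |q a b - F * (a * b)| ≤ F / 10 * |a * b| :=
    fun a b ha hb => by
    refine (hq1 a b (ha.trans hrr) (hb.trans hrr)).trans ?_
    refine mul_le_mul_of_nonneg_right ?_ (abs_nonneg _)
    linarith [mul_le_mul_of_nonneg_left (add_le_add ha hb) hΛ]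
  have hqm : ∀ a b m, |a| ≤ m → |b| ≤ m → m ≤ r →
      |q a b - F * (a * b)| ≤ 2 * Λ * m * |a * b| := fun a b m ha hb hm => by
    refine (hq1 a b ((ha.trans hm).trans hrr) ((hb.trans hm).trans hrr)).trans ?_
    refine mul_le_mul_of_nonneg_right ?_ (abs_nonneg _)
    linarith [mul_le_mul_of_nonneg_left (add_le_add ha hb) hΛ]
  have hval : ∀ {e a b z : ℝ}, Val R e a b z → |z - q a b| ≤ 4 * e := fun h => by
    rw [hqd]
    exact val_snd hs h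
  have hcpl : ∀ {e a b : ℝ}, 0 < e → e ≤ ε₀ → |a| ≤ r → |b| ≤ r → Val R e a b (q a b) :=
    fun {e a b} he he' ha hb => by
    rw [hqd]
    refine val_cpl hρ hc he he' (by linarith) (by linarith) ?_
    exact (abs_add_le a b).trans (by linarith)
  obtain ⟨C, hCd⟩ : ∃ C : ℝ, C = 1 + 4 * Λ + 2 * Λ / F + 2 / F := ⟨_, rfl⟩
  have hΛF : 0 ≤ 2 * Λ / F := by positivity
  have h2F : 0 < 2 / F := by positivity
  have hC1 : 1 ≤ C := by rw [hCd]; linarith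
  have hC4 : 4 * Λ ≤ C := by rw [hCd]; linarith
  have hCF : 2 ≤ C * F := by
    have h : 2 / F ≤ C := by rw [hCd]; linarith
    rwa [div_le_iff₀ hF] at h
  have hCΛ : 2 * Λ ≤ C * F := by
    have h : 2 * Λ / F ≤ C := by rw [hCd]; linarith
    rwa [div_le_iff₀ hF] at h
  refine ⟨r, C, APr R r M, GMr R M, hr0, hr1, hC1, ?_, ?_, ppGMr h2 h4 h6 h7 hR M,
    ?_, ?_, ?_, ?_⟩
  · have h := ppeq (Γ := Γ) h2 h6 (RA.coord (0 : Fin 1)) (RA.const (1 / (N : ℚ) / 16))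
    have h' : (((1 / (N : ℚ) / 16 : ℚ)) : ℝ) = r / 16 := by
      rw [hrd]
      push_cast
      rfl
    rw [h'] at h
    exact h
  · rw [hrd]
    exact ppAPr h2 h4 h6 h7 hR N M
  · rintro a b c ⟨ha0, har, hb0, hbr, hc0, hcr, u, hu0, hu1, hu2, hu3⟩
    refine ⟨ha0, har, hb0, hbr, hc0, hcr, ?_⟩
    rw [← hκd] at hu0 hu1
    have k0 := hval hu0
    have k1 := hval hu1
    have q0 := hqr a b (by rwa [abs_of_nonneg ha0]) (by rwa [abs_of_nonneg hb0])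
    have q1 := hqr c r (by rwa [abs_of_nonneg hc0]) (by rw [abs_of_pos hr0])
    have hab : 0 ≤ a * b := mul_nonneg ha0 hb0
    have hcr' : 0 ≤ c * r := mul_nonneg hc0 hr0.le
    rw [abs_of_nonneg hab] at q0
    rw [abs_of_nonneg hcr'] at q1
    have hke : 4 * (κ * c) ≤ F / 20 * (c * r) := by
      linarith [mul_le_mul_of_nonneg_left hκF hc0]
    rw [abs_le] at k0 k1 q0 q1
    constructor
    · have h : F * (a * b) ≤ F * (3 * (r * c)) := by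
        linarith [mul_nonneg hF.le hcr']
      exact le_of_mul_le_mul_left h hF
    · have h : F * (r * c) ≤ F * (3 * (a * b)) := by
        linarith [mul_nonneg hF.le hab]
      exact le_of_mul_le_mul_left h hF
  · intro a b ha0 har hb0 hbr
    have hab : 0 < a * b := mul_pos ha0 hb0
    have hcd : a * b / r * r = a * b := by field_simp
    have hc0 : 0 < a * b / r := by positivity
    have hcr : a * b / r ≤ r := by
      rw [div_le_iff₀ hr0]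
      exact mul_le_mul har hbr hb0.le hr0.le
    obtain ⟨c, hcc⟩ : ∃ c, c = a * b / r := ⟨_, rfl⟩
    rw [← hcc] at hcd hc0 hcr ⊢
    have he0 : 0 < κ * c := mul_pos hκ0 hc0
    have he1 : κ * c ≤ ε₀ := (mul_le_mul_of_nonneg_left hcr hκ0.le).trans hκe
    have ha' : |a| ≤ r := by rwa [abs_of_pos ha0]
    have hb' : |b| ≤ r := by rwa [abs_of_pos hb0]
    have hc' : |c| ≤ r := by rwa [abs_of_pos hc0]
    have hr'' : |r| ≤ r := by rw [abs_of_pos hr0]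
    have q0 := hqr a b ha' hb'
    have q1 := hqr c r hc' hr''
    rw [hcd] at q1
    rw [abs_of_pos hab, abs_le] at q0 q1
    have hFab : 0 < F * (a * b) := mul_pos hF hab
    refine ⟨ha0.le, har, hb0.le, hbr, hc0.le, hcr, ![q a b, q c r], ?_, ?_, ?_, ?_⟩
    · rw [← hκd]
      exact hcpl he0 he1 ha' hb'
    · rw [← hκd]
      exact hcpl he0 he1 hc' hr''
    · change q a b ≤ q c r + q c r
      linarith
    · change q c r ≤ q a b + q a b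
      linarith
  · rintro a b c δ ω ⟨u, hu0, hu1, hu2, hu3⟩ hω m hm ha hb hc hδ
    rw [← hκd] at hu0 hu1
    have k0 := hval hu0
    have k1 := hval hu1
    have q0 := hqm a b m ha hb hm
    have q1 := hqm c δ m hc hδ hm
    have hm0 : 0 ≤ m := (abs_nonneg a).trans ha
    have hke : 4 * (κ * ω) ≤ ω / 2 := by linarith [mul_le_mul_of_nonneg_right hκ8 hω]
    have hX : |F * (a * b - c * δ)| ≤ 2 * ω + 2 * Λ * m * (|a * b| + |c * δ|) := by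
      rw [abs_le] at *
      constructor <;> linarith [k0.1, k0.2, k1.1, k1.2, q0.1, q0.2, q1.1, q1.2]
    rw [abs_mul, abs_of_pos hF] at hX
    have hs0 : 0 ≤ m * (|a * b| + |c * δ|) := by positivity
    have h : F * |a * b - c * δ| ≤ F * (C * (m * (|a * b| + |c * δ|) + ω)) := by
      linarith [mul_le_mul_of_nonneg_right hCF hω, mul_le_mul_of_nonneg_right hCΛ hs0]
    exact le_of_mul_le_mul_left h hF
  · intro a b c δ ω m hm ha hb hc hδ hω hωr habc hCω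
    have he0 : 0 < κ * ω := mul_pos hκ0 hω
    have he1 : κ * ω ≤ ε₀ := (mul_le_mul_of_nonneg_left hωr hκ0.le).trans hκe
    have q0 := hqm a b m ha hb hm
    have q1 := hqm c δ m hc hδ hm
    rw [← habc] at q1
    have hm0 : 0 ≤ m := (abs_nonneg a).trans ha
    have hs0 : 0 ≤ m * |a * b| := by positivity
    have hfin : 4 * Λ * (m * |a * b|) ≤ ω := 
      (mul_le_mul_of_nonneg_right hC4 hs0).trans hCω
    rw [abs_le] at q0 q1
    refine ⟨![q a b, q c δ], ?_, ?_, ?_, ?_⟩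
    · rw [← hκd]
      exact hcpl he0 he1 (ha.trans hm) (hb.trans hm)
    · rw [← hκd]
      exact hcpl he0 he1 (hc.trans hm) (hδ.trans hm)
    · change q a b ≤ q c δ + ω
      linarith
    · change q c δ ≤ q a b + ω
      linarith

end Pool.Agent.Helper54.DP.TPL
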