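import Pool.Agent.Helper21.DI.SAF
import Pool.Agent.Helper24.DI.MATCH
import Pool.Agent.Helper25.DI.EK
import Pool.Agent.Helper30.DI.GADP
import Pool.Agent.Helper35.DI.CONE
import Pool.Agent.Helper38.DI.Z2B
import Pool.Agent.Helper38.DP.ACF
import Pool.Agent.Helper42.DI.HYP
import Pool.Agent.Helper42.DI.SEG
import Pool.Agent.Helper45.DI.P1
import Pool.Agent.Helper45.DI.PTX
import Pool.Agent.Helper47.DI.TRICK
import Pool.Agent.Helper49.DI.Z3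
import Pool.Agent.Helper52.DI.VNUM
import Pool.Agent.Helper54.DI.NP
import Pool.Agent.Helper54.DI.TRP
import Pool.Agent.Helper54.DP.CPL
import Pool.Agent.Helper54.DP.GAD
import Pool.Agent.Helper54.DP.HARD
import Pool.Agent.Helper54.DP.INST
import Pool.Agent.Helper54.DP.ITM
import Pool.Agent.Helper54.DP.Main
import Pool.Agent.Helper54.DP.PPA
import Pool.Agent.Helper54.DP.PPB
import Pool.Agent.Helper54.DP.PPC
import Pool.Agent.Helper54.DP.PPTUP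
import Pool.Agent.Helper54.DP.SND
import Pool.Agent.Helper54.DP.TPF
import Pool.Agent.Helper54.DP.TPL
import Pool.Agent.Helper57.DI.Z1
import Pool.Agent.Helper61.DI.NB
import Pool.Agent.Helper63.DI.TAU
import Pool.Agent.Helper67.DI.OKF
import Pool.Agent.Helper7.DI.INST
import Pool.Agent.Helper7.DI.LOCP
import Pool.Agent.Helper71.DI.GEOP
import Pool.Agent.Helper71.DI.LOC
import Pool.Agent.Helper72.DI.GEOH
import Pool.Agent.Helper74.DI.BG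
import Pool.Agent.Helper74.DI.DIR
import Pool.Agent.Helper77.DI.Q2
import Pool.Agent.Helper78.DI.SLIN
import Pool.Agent.Helper79.DI.P3
import Pool.Agent.Helper79.DI.Z4
import Pool.Agent.Helper83.DI.TRS
import Pool.Agent.Helper90.DI.CHB
import Pool.Agent.Helper91.DI.GEOT
import Pool.Agent.Helper94.DI.Z2A
import Pool.Agent.Helper95.DI.GEO

/-!
All modules of the dichotomy theorem together.
-/

namespace Pool.Agent.Helper54.DP.All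

theorem a_NCOMP : Pool.Agent.Helper54.DI.ST_NCOMP :=
  Pool.Agent.Helper54.DI.st_NCOMP
theorem a_NID : Pool.Agent.Helper54.DI.ST_NID :=
  Pool.Agent.Helper54.DI.st_NID
theorem a_NB : Pool.Agent.Helper54.DI.ST_NB :=
  Pool.Agent.Helper54.DI.st_NB
theorem a_HYP : Pool.Agent.Helper54.DI.ST_HYP :=
  Pool.Agent.Helper54.DI.st_HYP
theorem a_SEG : Pool.Agent.Helper54.DI.ST_SEG :=
  Pool.Agent.Helper54.DI.st_SEG
theorem a_SLIN : Pool.Agent.Helper54.DI.ST_SLIN :=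
  Pool.Agent.Helper54.DI.st_SLIN a_NCOMP a_NID a_NB a_HYP a_SEG
theorem a_CONE : Pool.Agent.Helper54.DI.ST_CONE :=
  Pool.Agent.Helper54.DI.st_CONE a_NCOMP a_NID a_NB a_HYP a_SEG
theorem a_Z1 : Pool.Agent.Helper54.DI.ST_Z1 :=
  Pool.Agent.Helper57.DI.st_Z1
theorem a_Z2A : Pool.Agent.Helper54.DI.ST_Z2A :=
  Pool.Agent.Helper94.DI.st_Z2A
theorem a_Z2B : Pool.Agent.Helper54.DI.ST_Z2B :=
  Pool.Agent.Helper38.DI.Z2B
theorem a_TOP : Pool.Agent.Helper54.DI.ST_TOP :=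
  Pool.Agent.Helper54.DI.st_TOP
theorem a_Z3 : Pool.Agent.Helper54.DI.ST_Z3 :=
  Pool.Agent.Helper54.DI.st_Z3 a_TOP
theorem a_Z4 : Pool.Agent.Helper54.DI.ST_Z4 :=
  Pool.Agent.Helper54.DI.st_Z4
theorem a_LOC : Pool.Agent.Helper54.DI.ST_LOC :=
  Pool.Agent.Helper54.DI.st_LOC a_Z1 a_Z2A a_Z2B a_Z3 a_Z4
theorem a_DIR : Pool.Agent.Helper54.DI.ST_DIR :=
  Pool.Agent.Helper74.DI.st_DIR
theorem a_TRICK : Pool.Agent.Helper54.DI.ST_TRICK :=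
  Pool.Agent.Helper54.DI.st_TRICK
theorem a_GEOT : Pool.Agent.Helper54.DI.ST_GEOT :=
  Pool.Agent.Helper54.DI.st_GEOT a_DIR a_TRICK a_NB
theorem a_GEOH : Pool.Agent.Helper54.DI.ST_GEOH :=
  Pool.Agent.Helper54.DI.st_GEOH a_DIR a_TRICK a_NB
theorem a_SAPRE : Pool.Agent.Helper54.DI.ST_SAPRE :=
  Pool.Agent.Helper54.DI.st_SAPRE
theorem a_GEO : Pool.Agent.Helper54.DI.ST_GEO :=
  Pool.Agent.Helper54.DI.st_GEO a_SLIN a_CONE a_LOC a_GEOT a_GEOH a_SAPRE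
theorem p_PPAND : Pool.Agent.Helper54.DP.ST_PPAND :=
  Pool.Agent.Helper54.DP.PPA.st_PPAND
theorem p_PPRE : Pool.Agent.Helper54.DP.ST_PPRE :=
  Pool.Agent.Helper54.DP.PPA.st_PPRE
theorem p_PPEX : Pool.Agent.Helper54.DP.ST_PPEX :=
  Pool.Agent.Helper54.DP.PPA.st_PPEX
theorem p_PPTRUE : Pool.Agent.Helper54.DP.ST_PPTRUE :=
  Pool.Agent.Helper54.DP.PPA.st_PPTRUE
theorem p_PPALL : Pool.Agent.Helper54.DP.ST_PPALL :=
  Pool.Agent.Helper54.DP.PPB.st_PPALL p_PPAND p_PPTRUE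
theorem p_PPLE : Pool.Agent.Helper54.DP.ST_PPLE :=
  Pool.Agent.Helper54.DP.PPB.st_PPLE p_PPAND p_PPRE p_PPEX p_PPTRUE
theorem p_PPAFF : Pool.Agent.Helper54.DP.ST_PPAFF :=
  Pool.Agent.Helper54.DP.PPB.st_PPAFF p_PPAND p_PPRE p_PPEX p_PPTRUE
theorem p_PPREL : Pool.Agent.Helper54.DP.ST_PPREL :=
  Pool.Agent.Helper54.DP.PPC.st_PPREL
theorem p_PPTUP : Pool.Agent.Helper54.DP.ST_PPTUP :=
  Pool.Agent.Helper54.DP.PPTUP.st_PPTUP p_PPAND p_PPRE p_PPEX p_PPALL p_PPLE p_PPAFF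
theorem p_GAD : Pool.Agent.Helper54.DP.ST_GAD :=
  Pool.Agent.Helper54.DP.GAD.st_GAD p_PPAND p_PPRE p_PPEX p_PPALL p_PPLE p_PPAFF p_PPREL p_PPTUP
theorem a_P1 : Pool.Agent.Helper54.DI.ST_P1 :=
  Pool.Agent.Helper45.DI.st_P1 a_TOP
theorem a_P3 : Pool.Agent.Helper54.DI.ST_P3 :=
  Pool.Agent.Helper54.DI.st_P3 a_TOP
theorem a_LOCP : Pool.Agent.Helper54.DI.ST_LOCP :=
  Pool.Agent.Helper7.DI.st_LOCP a_P1 a_Z2A a_Z2B a_P3
theorem a_GEOP : Pool.Agent.Helper54.DI.ST_GEOP :=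
  Pool.Agent.Helper54.DI.st_GEOP a_LOCP a_DIR
theorem p_GADP : Pool.Agent.Helper54.DP.ST_GADP :=
  Pool.Agent.Helper30.DP.st_GADP p_PPAND p_PPRE p_PPEX p_PPALL p_PPLE p_PPAFF p_PPREL
theorem a_Q2 : Pool.Agent.Helper54.DI.ST_Q2 :=
  Pool.Agent.Helper54.DI.st_Q2
theorem p_TPL : Pool.Agent.Helper54.DP.ST_TPL :=
  Pool.Agent.Helper54.DP.TPL.st_TPL a_Q2 p_PPAND p_PPRE p_PPEX p_PPALL p_PPLE p_PPAFF
theorem a_BG : Pool.Agent.Helper54.DI.ST_BG :=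
  Pool.Agent.Helper74.DI.st_BG
theorem a_CHB : Pool.Agent.Helper54.DI.ST_CHB :=
  Pool.Agent.Helper90.DI.st_CHB
theorem p_SND : Pool.Agent.Helper54.DP.ST_SND :=
  Pool.Agent.Helper54.DP.SND.st_SND a_BG a_CHB
theorem p_CPL : Pool.Agent.Helper54.DP.ST_CPL :=
  Pool.Agent.Helper54.DP.CPL.st_CPL a_BG
theorem p_INSC : Pool.Agent.Helper54.DP.ST_INSC :=
  Pool.Agent.Helper54.DP.INST.st_INSC
theorem a_INST : Pool.Agent.Helper54.DI.ST_INST :=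
  Pool.Agent.Helper7.DI.st_INST
theorem a_VNUM : Pool.Agent.Helper54.DI.ST_VNUM :=
  Pool.Agent.Helper52.DI.st_VNUM
theorem p_ITM : Pool.Agent.Helper54.DP.ST_ITM :=
  Pool.Agent.Helper54.DP.ITM.st_ITM a_INST a_VNUM
theorem p_PPOUT : Pool.Agent.Helper54.DP.ST_PPOUT :=
  Pool.Agent.Helper54.DP.PPC.st_PPOUT
theorem p_TPF : Pool.Agent.Helper54.DP.ST_TPF :=
  Pool.Agent.Helper54.DP.TPF.st_TPF p_PPOUT p_PPLE p_PPAND
theorem a_PTREN : Pool.Agent.Helper54.DI.ST_PTREN :=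
  Pool.Agent.Helper54.DI.st_PTREN
theorem a_PTINST : Pool.Agent.Helper54.DI.ST_PTINST :=
  Pool.Agent.Helper54.DI.st_PTINST a_PTREN
theorem a_PTITM : Pool.Agent.Helper54.DI.ST_PTITM :=
  Pool.Agent.Helper54.DI.st_PTITM
theorem a_EK : Pool.Agent.Helper54.DI.ST_EK :=
  Pool.Agent.Helper25.DI.st_EK
theorem p_HARD : Pool.Agent.Helper54.DP.ST_HARD :=
  Pool.Agent.Helper54.DP.HARD.st_HARD p_TPL p_SND p_CPL p_INSC p_ITM p_TPF a_PTINST a_PTITM a_EK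
theorem a_SAF : Pool.Agent.Helper54.DI.ST_SAF :=
  Pool.Agent.Helper54.DI.st_SAF
theorem p_ACF : Pool.Agent.Helper54.DP.ST_ACF :=
  Pool.Agent.Helper38.DP.st_ACF
theorem a_SLF : Pool.Agent.Helper54.DI.ST_SLF :=
  Pool.Agent.Helper54.DI.st_SLF
theorem a_MATCH : Pool.Agent.Helper54.DI.ST_MATCH :=
  Pool.Agent.Helper24.DI.st_MATCH a_VNUM
theorem a_OKF : Pool.Agent.Helper54.DI.ST_OKF :=
  Pool.Agent.Helper67.DI.st_OKF a_MATCH
theorem a_TAU : Pool.Agent.Helper54.DI.ST_TAU :=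
  Pool.Agent.Helper63.DI.tau
theorem a_TRS : Pool.Agent.Helper54.DI.ST_TRS :=
  Pool.Agent.Helper83.DI.st_TRS a_MATCH
theorem a_TRP : Pool.Agent.Helper54.DI.ST_TRP :=
  Pool.Agent.Helper54.DI.st_TRP a_VNUM a_PTREN
theorem a_NP : Pool.Agent.Helper54.DI.ST_NP :=
  Pool.Agent.Helper54.DI.st_NP a_OKF a_TAU a_TRS a_TRP
theorem p_MAIN2 : Pool.Agent.Helper54.DP.ST_MAIN2 :=
  Pool.Agent.Helper54.DP.st_MAIN2 a_GEO p_GAD a_GEOP p_GADP p_HARD a_SAF p_ACF a_SLF a_NP a_OKF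
    a_TRP

end Pool.Agent.Helper54.DP.All
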