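/- adapted from Helper88/DI/PPTUP.lean -/
import Pool.Agent.Helper54.DP.Stmts

namespace Pool.Agent.Helper54.DP.PPTUP

open Finset Filter Topology
open Pool.Agent.Helper54.ETR hiding Cons
open Pool.Agent.Helper54.Poly
open Pool.Agent.Helper54.DI hiding PP Gad Tpl ST_PPAND ST_PPRE ST_PPEX ST_PPTRUE ST_PPALL ST_PPLE
  ST_PPAFF ST_PPREL ST_PPOUT ST_PPTUP ST_GAD ST_TPL ST_SND ST_CPL ST_INSC ST_ITM ST_TPF ST_HARD

theorem pp_congr {Γ : Sig} {ι : Type} {P Q : (ι → ℝ) → Prop} (h : PP Γ P)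
    (e : ∀ v, P v ↔ Q v) : PP Γ Q := by
  have : P = Q := funext fun v => propext (e v)
  rwa [← this]

theorem pp_true (hall : ST_PPALL) (Γ : Sig) (ι : Type) [Fintype ι] :
    PP Γ (fun _ : ι → ℝ => True) :=
  pp_congr (hall Γ ι 0 (fun i => i.elim0) (fun i => i.elim0)) (fun v => by simp)

theorem pp_all (hall : ST_PPALL) {Γ : Sig} {ι τ : Type} [Fintype ι] [Fintype τ]
    {P : τ → (ι → ℝ) → Prop} (h : ∀ i, PP Γ (P i)) : PP Γ (fun v => ∀ i, P i v) := by
  refine pp_congr (hall Γ ι (Fintype.card τ) (fun j => P ((Fintype.equivFin τ).symm j))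
    (fun j => h _)) (fun v => ?_)
  constructor
  · intro H i
    have := H (Fintype.equivFin τ i)
    simpa using this
  · intro H j
    exact H _

theorem pp_le (hle : ST_PPLE) {Γ : Sig} {ι : Type} [Fintype ι] (i : ι) (b : ℚ) :
    PP Γ (fun v : ι → ℝ => v i ≤ b) := by
  classical
  refine pp_congr (hle Γ ι (Pi.single i 1) b) (fun v => ?_)
  have : ∑ j, ((Pi.single i (1 : ℚ) : ι → ℚ) j : ℝ) * v j = v i := by
    rw [Finset.sum_eq_single i]
    · simp
    · intro j _ hj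
      rw [Pi.single_eq_of_ne hj]; simp
    · intro h; exact absurd (Finset.mem_univ i) h
  rw [this]

theorem pp_ge (hle : ST_PPLE) {Γ : Sig} {ι : Type} [Fintype ι] (i : ι) (b : ℚ) :
    PP Γ (fun v : ι → ℝ => (b : ℝ) ≤ v i) := by
  classical
  refine pp_congr (hle Γ ι (Pi.single i (-1)) (-b)) (fun v => ?_)
  have : ∑ j, ((Pi.single i (-1 : ℚ) : ι → ℚ) j : ℝ) * v j = - v i := by
    rw [Finset.sum_eq_single i]
    · simp
    · intro j _ hj
      rw [Pi.single_eq_of_ne hj]; simp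
    · intro h; exact absurd (Finset.mem_univ i) h
  rw [this]
  push_cast
  exact neg_le_neg_iff

theorem pp_lev (hle : ST_PPLE) {Γ : Sig} {ι : Type} [Fintype ι] (i j : ι) :
    PP Γ (fun v : ι → ℝ => v i ≤ v j) := by
  classical
  refine pp_congr (hle Γ ι (Pi.single i 1 - Pi.single j 1) 0) (fun v => ?_)
  have : ∑ l, ((Pi.single i (1 : ℚ) - Pi.single j (1 : ℚ) : ι → ℚ) l : ℝ) * v l = v i - v j := by
    have h1 : ∑ l, ((Pi.single i (1 : ℚ) : ι → ℚ) l : ℝ) * v l = v i := by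
      rw [Finset.sum_eq_single i]
      · simp
      · intro j _ hj
        rw [Pi.single_eq_of_ne hj]; simp
      · intro h; exact absurd (Finset.mem_univ i) h
    have h2 : ∑ l, ((Pi.single j (1 : ℚ) : ι → ℚ) l : ℝ) * v l = v j := by
      rw [Finset.sum_eq_single j]
      · simp
      · intro j _ hj
        rw [Pi.single_eq_of_ne hj]; simp
      · intro h; exact absurd (Finset.mem_univ j) h
    rw [← h1, ← h2, ← Finset.sum_sub_distrib]
    refine Finset.sum_congr rfl fun l _ => ?_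
    rw [Pi.sub_apply]
    push_cast
    ring
  rw [this]
  push_cast
  exact sub_nonpos

theorem st_PPTUP (hand : ST_PPAND) (hre : ST_PPRE) (hex : ST_PPEX) (hall : ST_PPALL)
    (hle : ST_PPLE) (haff : ST_PPAFF) : ST_PPTUP := by
  classical
  intro Γ k T m a b hT hT'
  have H1 : PP Γ (fun w : (Fin k ⊕ (Fin (m + 1) × Fin k)) → ℝ =>
      ∀ l : Fin k, w (Sum.inr (0, l)) ≤ w (Sum.inl l) ∧ w (Sum.inl l) ≤ w (Sum.inr (0, l))) :=
    pp_all hall fun l => hand Γ _ _ _ (pp_lev hle _ _) (pp_lev hle _ _)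
  have H2 : PP Γ (fun w : (Fin k ⊕ (Fin (m + 1) × Fin k)) → ℝ =>
      ∀ i : Fin (m + 1), (fun l => w (Sum.inr (i, l))) ∈ T ∧
        ∀ l : Fin k, (a l : ℝ) ≤ w (Sum.inr (i, l)) ∧ w (Sum.inr (i, l)) ≤ b l) := by
    refine pp_all hall fun i => hand Γ _ _ _ ?_ ?_
    · exact hre Γ (Fin k ⊕ (Fin (m + 1) × Fin k)) (Fin k) (fun v => v ∈ T)
        (fun l => Sum.inr (i, l)) hT
    · exact pp_all hall fun l => hand Γ _ _ _ (pp_ge hle _ _) (pp_le hle _ _)
  have H3 : PP Γ (fun w : (Fin k ⊕ (Fin (m + 1) × Fin k)) → ℝ =>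
      ∀ i j : Fin (m + 1), i < j →
        (fun l => (w (Sum.inr (i, l)) + w (Sum.inr (j, l))) / 2) ∉ T) := by
    refine pp_all hall fun i => pp_all hall fun j => ?_
    by_cases hij : i < j
    · refine pp_congr (haff Γ (Fin k ⊕ (Fin (m + 1) × Fin k)) (Fin k) (fun v => v ∉ T)
        (fun l => Pi.single (Sum.inr (i, l)) (1 / 2) + Pi.single (Sum.inr (j, l)) (1 / 2))
        (fun _ => 0) hT') (fun w => ?_)
      have hne : i ≠ j := ne_of_lt hij
      have key : (fun l : Fin k => ∑ q, ((Pi.single (Sum.inr (i, l)) (1 / 2 : ℚ) +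
          Pi.single (Sum.inr (j, l)) (1 / 2 : ℚ) : (Fin k ⊕ (Fin (m + 1) × Fin k)) → ℚ) q : ℝ)
            * w q + ((0 : ℚ) : ℝ)) =
          fun l => (w (Sum.inr (i, l)) + w (Sum.inr (j, l))) / 2 := by
        funext l
        have h1 : ∀ q0 : (Fin k ⊕ (Fin (m + 1) × Fin k)),
            ∑ q, ((Pi.single q0 (1 / 2 : ℚ) :
              (Fin k ⊕ (Fin (m + 1) × Fin k)) → ℚ) q : ℝ) * w q = w q0 / 2 := by
          intro q0
          rw [Finset.sum_eq_single q0]
          · simp; ring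
          · intro q _ hq
            rw [Pi.single_eq_of_ne hq]; simp
          · intro h; exact absurd (Finset.mem_univ q0) h
        have h2 : ∑ q, ((Pi.single (Sum.inr (i, l)) (1 / 2 : ℚ) +
          Pi.single (Sum.inr (j, l)) (1 / 2 : ℚ) : (Fin k ⊕ (Fin (m + 1) × Fin k)) → ℚ) q : ℝ)
            * w q = w (Sum.inr (i, l)) / 2 + w (Sum.inr (j, l)) / 2 := by
          rw [← h1, ← h1, ← Finset.sum_add_distrib]
          refine Finset.sum_congr rfl fun q _ => ?_
          rw [Pi.add_apply]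
          push_cast
          ring
        rw [h2]
        push_cast
        ring
      simp only [key]
      exact ⟨fun h _ => h, fun h => h hij⟩
    · exact pp_congr (pp_true hall Γ _) (fun w => ⟨fun _ h => absurd h hij, fun _ => trivial⟩)
  have H4 := hex Γ (Fin k) (Fin (m + 1) × Fin k) _ (hand Γ _ _ _ H1 (hand Γ _ _ _ H2 H3))
  refine pp_congr H4 (fun v => ?_)
  simp only [Sum.elim_inl, Sum.elim_inr]
  constructor
  · rintro ⟨u, h1, h2, h3⟩
    exact ⟨fun i l => u (i, l), funext fun l => le_antisymm (h1 l).1 (h1 l).2,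
      fun i => ⟨(h2 i).1, fun l => (h2 i).2 l⟩, h3⟩
  · rintro ⟨p, rfl, h2, h3⟩
    exact ⟨fun q => p q.1 q.2, fun l => ⟨le_refl _, le_refl _⟩,
      fun i => ⟨(h2 i).1, fun l => (h2 i).2 l⟩, h3⟩

end Pool.Agent.Helper54.DP.PPTUP
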