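import Pool.Agent.Helper54.DP.Main
import Pool.Agent.Helper54.DI.Defs3

namespace Pool.Agent.Helper54.DP

open Pool.Agent.Helper54.ETR hiding Cons
open Pool.Agent.Helper54.Poly
open Pool.Agent.Helper54.DI hiding PP Gad Tpl ST_PPAND ST_PPRE ST_PPEX ST_PPTRUE ST_PPALL ST_PPLE
  ST_PPAFF ST_PPREL ST_PPOUT ST_PPTUP ST_GAD ST_TPL ST_SND ST_CPL ST_INSC ST_ITM ST_TPF ST_HARD

/-- the dichotomy, with both reductions -/
def ST_RES : Prop :=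
  (∀ Γ : List Form, (∀ ρ ∈ Γ, SemiLin ρ) → InNP (SAT Γ)) ∧
  (∀ Γ : List Form, (∃ ρ ∈ Γ, ¬ SemiLin ρ) →
    PolyRed ETR (SAT Γ) ∧ PolyRed (SAT Γ) ETR ∧ (InNP (SAT Γ) ↔ InNP ETR)) ∧
  ∀ (ρ : Form) (P N : List Form), ¬ SemiLin ρ → ρ ∈ P → (ρ ∈ N ∨ ρ.Algebraic) →
    PolyRed ETR (CSP P N)

theorem st_RES (hM : ST_MAIN2) (hO : ST_OKF) (hP : ST_TRP) : ST_RES := by
  obtain ⟨h1, h2, h3⟩ := hM
  have h4 : ∀ (ρ : Form) (P N : List Form), ¬ SemiLin ρ → ρ ∈ P → (ρ ∈ N ∨ ρ.Algebraic) →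
      PolyRed ETR (CSP P N) := by
    intro ρ P N a b c
    obtain ⟨f, hf, h⟩ := h3 ρ P N a b c
    refine ⟨f, hf, fun u => ?_⟩
    obtain ⟨φ, k1, k2, k3⟩ := h u
    constructor
    · intro hu
      obtain ⟨x, hx⟩ := k3.1 hu
      exact ⟨φ, k1, k2, x, hx⟩
    · rintro ⟨ψ, k4, -, x, hx⟩
      have e : ψ = φ := code_injective (k4.symm.trans k1)
      rw [e] at hx
      exact k3.2 ⟨x, hx⟩
  refine ⟨h1, fun Γ hΓ => ⟨?_, ?_, h2 Γ hΓ⟩, h4⟩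
  · obtain ⟨ρ, hρ, hns⟩ := hΓ
    obtain ⟨f, hf, h⟩ := h3 ρ [ρ] [ρ] hns (by simp) (Or.inl (by simp))
    refine ⟨f, hf, fun u => ?_⟩
    obtain ⟨φ, k1, k2, k3⟩ := h u
    constructor
    · intro hu
      obtain ⟨x, hx⟩ := k3.1 hu
      exact ⟨φ, k1, constr_over (by simpa using hρ) (by simpa using hρ) k2, x, hx⟩
    · rintro ⟨ψ, k4, -, x, hx⟩
      have e : ψ = φ := code_injective (k4.symm.trans k1)
      rw [e] at hx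
      exact k3.2 ⟨x, hx⟩
  · obtain ⟨g, -, hg, h⟩ := back2 hO hP Γ
    refine ⟨g, hg, fun u => ?_⟩
    exact h u

end Pool.Agent.Helper54.DP
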